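import Pool.Agent.Lib.MP_f7c5a7_al.E4.Rel

/-!
# MP_f7c5a7_al: `(g - 1) ^ 3 = 0` for all elements of a group implies the fourth Engel identity
-/

set_option autoImplicit false

namespace Pool.Agent.MP_f7c5a7_al.E4

/-- the commutator `x⁻¹ y⁻¹ x y` -/
def cm {U : Type} [Group U] (x y : U) : U := x⁻¹ * y⁻¹ * x * y

/-- the iterated commutator `[x, y, ..., y]` -/
def eng {U : Type} [Group U] : ℕ → U → U → U
  | 0, x, _ => x
  | k + 1, x, y => cm (eng k x y) y

namespace Tr

variable {R : Type} [Ring R]

/-- the rewriting table -/
def tbl : List (List Bool × List (List Bool)) :=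
  [([false, true, false, false], [[false, false, true, false]]),
   ([true, true, false], [[false, false, true], [false, true, false], [false, true, true],
      [true, false, false], [true, false, true]]),
   ([true, false, false, true], [[false, false, true, true], [false, true, false, true]]),
   ([true, false, true, false], [[false, false, true, true]]),
   ([true, true, false, false], [[false, true, false, true]]),
   ([true, true, false, true], [[true, false, true, true]]),
   ([true, false, false, true, false], [[false, false, true, false, true]]),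
   ([true, false, false, true, true], [[false, true, false, true, true]]),
   ([true, false, true, false, true], []),
   ([true, true, false, true, true], []),
   ([true, false, false, true, false, true], [[false, false, true, false, true, true]]),
   ([true, false, true, false, true, true], []),
   ([true, false, false, true, false, true, true], []),
   ([true, true, true], []),
   ([false, false, false], []),
   ([false, false, false, true], []),
   ([false, false, false, true, false], []),
   ([false, false, false, true, true], []),
   ([false, false, false, true, false, true], []),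
   ([false, false, false, true, false, true, true], [])]

/-- look up a word -/
def look (w : List Bool) : List (List Bool × List (List Bool)) → List (List Bool)
  | [] => [w]
  | p :: t => if p.1 = w then p.2 else look w t

theorem sv_nil (a b : R) : sv a b [] = 0 := rfl

theorem sv_cons (a b : R) (w : List Bool) (L : List (List Bool)) :
    sv a b (w :: L) = wv a b w + sv a b L := by
  unfold sv
  rw [List.map_cons, List.sum_cons]

theorem look_ok (a b : R) (w : List Bool) : ∀ T : List (List Bool × List (List Bool)),
    (∀ p ∈ T, wv a b p.1 = sv a b p.2) → sv a b (look w T) = wv a b w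
  | [], _ => by rw [look, sv_cons, sv_nil, add_zero]
  | p :: t, h => by
    rw [look]
    split_ifs with e
    · rw [← e]
      exact (h p (List.mem_cons_self)).symm
    · exact look_ok a b w t (fun q hq => h q (List.mem_cons_of_mem _ hq))

theorem tbl_ok (a b : R) (h : Rels a b) : ∀ p ∈ tbl, wv a b p.1 = sv a b p.2 := by
  have ababa : a * b * a * b * a = 0 := by
    rw [← h.bbaa, mul_assoc (b * b) a a, mul_assoc (b * b), h.aaa, mul_zero]
  have aabaa : a * a * b * a * a = 0 := by
    rw [← h.abaa, mul_assoc (a * b) a a, mul_assoc (a * b), h.aaa, mul_zero]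
  have aabba : a * a * b * b * a = a * a * b * a * b := by
    have e : a * a * b * b * a = a * a * (b * b * a) := by noncomm_ring
    rw [e, h.bba]
    have e2 : a * a * (a * a * b + a * b * a + a * b * b + b * a * a + b * a * b) =
      (a * a * a) * (a * b + b * a + b * b) + a * a * b * a * a + a * a * b * a * b := by noncomm_ring
    rw [e2, h.aaa, aabaa, zero_mul, zero_add, zero_add]
  have baaba : b * a * a * b * a = a * a * b * a * b := by
    rw [h.baab, add_mul, ababa, add_zero, aabba]
  have baabb : b * a * a * b * b = a * b * a * b * b := by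
    rw [h.baab, add_mul]
    have e : a * a * b * b * b = a * a * (b * b * b) := by noncomm_ring
    rw [e, h.bbb, mul_zero, zero_add]
  have babab : b * a * b * a * b = 0 := by
    rw [h.baba]
    have e : a * a * b * b * b = a * a * (b * b * b) := by noncomm_ring
    rw [e, h.bbb, mul_zero]
  have bbabb : b * b * a * b * b = 0 := by
    rw [h.bbab]
    have e : b * a * b * b * b = b * a * (b * b * b) := by noncomm_ring
    rw [e, h.bbb, mul_zero]
  have baabab : b * a * a * b * a * b = a * a * b * a * b * b := by
    rw [baaba]
  have bababb : b * a * b * a * b * b = 0 := by rw [babab, zero_mul]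
  have baababb : b * a * a * b * a * b * b = 0 := by
    rw [baabab]
    have e : a * a * b * a * b * b * b = a * a * b * a * (b * b * b) := by noncomm_ring
    rw [e, h.bbb, mul_zero]
  have e1 := h.abaa
  have e2 := h.bba
  have e3 := h.baab
  have e4 := h.baba
  have e5 := h.bbaa
  have e6 := h.bbab
  have e7 := h.aaa
  have e8 := h.bbb
  intro p hp
  simp only [tbl, List.mem_cons, List.not_mem_nil, or_false] at hp
  rcases hp with rfl | rfl | rfl | rfl | rfl | rfl | rfl | rfl | rfl | rfl | rfl | rfl | rfl | rfl | rfl | rfl |
    rfl | rfl | rfl | rfl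
  all_goals simp only [sv_cons, sv_nil, wv, cond_false, cond_true, mul_one, add_zero, ← mul_assoc]
  all_goals first | assumption | skip
  · rw [e2]; noncomm_ring
  · rw [e7, zero_mul]
  · rw [e7, zero_mul, zero_mul]
  · rw [e7, zero_mul, zero_mul]
  · rw [e7, zero_mul, zero_mul, zero_mul]
  · rw [e7, zero_mul, zero_mul, zero_mul, zero_mul]

/-- insert a word, cancel it if it is there -/
def ins (w : List Bool) : List (List Bool) → List (List Bool)
  | [] => [w]
  | v :: t => if w = v then t else v :: ins w t

/-- the sum of two lists of words -/
def addL : List (List Bool) → List (List Bool) → List (List Bool)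
  | [], Q => Q
  | w :: t, Q => ins w (addL t Q)

/-- multiply on the left by a letter -/
def lmul (c : Bool) : List (List Bool) → List (List Bool)
  | [] => []
  | w :: t => addL (look (c :: w) tbl) (lmul c t)

/-- multiply on the left by a word -/
def wact : List Bool → List (List Bool) → List (List Bool)
  | [], Q => Q
  | c :: w, Q => lmul c (wact w Q)

/-- the product of two lists of words -/
def mulL : List (List Bool) → List (List Bool) → List (List Bool)
  | [], _ => []
  | w :: t, Q => addL (wact w Q) (mulL t Q)

theorem sv_ins (h2 : ∀ x : R, x + x = 0) (a b : R) (w : List Bool) : ∀ L : List (List Bool),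
    sv a b (ins w L) = wv a b w + sv a b L
  | [] => by rw [ins, sv_cons]
  | v :: t => by
    rw [ins]
    split_ifs with e
    · rw [sv_cons, e, ← add_assoc, h2, zero_add]
    · rw [sv_cons, sv_cons, sv_ins h2 a b w t]
      abel

theorem sv_addL (h2 : ∀ x : R, x + x = 0) (a b : R) : ∀ L Q : List (List Bool),
    sv a b (addL L Q) = sv a b L + sv a b Q
  | [], Q => by rw [addL, sv_nil, zero_add]
  | w :: t, Q => by
    rw [addL, sv_ins h2, sv_addL h2 a b t Q, sv_cons, add_assoc]

theorem sv_lmul (a b : R) (h : Rels a b) (c : Bool) : ∀ L : List (List Bool),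
    sv a b (lmul c L) = (bif c then b else a) * sv a b L
  | [] => by rw [lmul, sv_nil, mul_zero]
  | w :: t => by
    rw [lmul, sv_addL h.h2, look_ok a b _ _ (tbl_ok a b h), sv_lmul a b h c t, sv_cons, mul_add, wv]

theorem sv_wact (a b : R) (h : Rels a b) : ∀ (w : List Bool) (Q : List (List Bool)),
    sv a b (wact w Q) = wv a b w * sv a b Q
  | [], Q => by rw [wact, wv, one_mul]
  | c :: w, Q => by rw [wact, sv_lmul a b h, sv_wact a b h w Q, wv, mul_assoc]

theorem sv_mulL (a b : R) (h : Rels a b) : ∀ P Q : List (List Bool),
    sv a b (mulL P Q) = sv a b P * sv a b Q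
  | [], Q => by rw [mulL, sv_nil, zero_mul]
  | w :: t, Q => by
    rw [mulL, sv_addL h.h2, sv_wact a b h, sv_mulL a b h t Q, sv_cons, add_mul]

/-- `x` -/
def px : List (List Bool) := [[], [false]]

/-- `y` -/
def py : List (List Bool) := [[], [true]]

/-- `[x, y]` -/
def p1 : List (List Bool) := [[], [false, true], [true, false], [false, true, true], [true, false, false],
  [false, false, true, false], [false, false, true, true], [true, false, true, true],
  [false, true, false, true, true], [false, false, true, false, true, true]]

/-- `[x, y, y]` -/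
def p2 : List (List Bool) := [[], [false, false, true], [false, true, false], [true, false, false],
  [true, false, true], [false, false, true, true], [false, true, false, true, true]]

/-- `[x, y, y, y]` -/
def p3 : List (List Bool) := [[], [false, true, false, true, true]]

theorem k1 : addL (mulL (mulL py px) p1) (mulL px py) = [] := by decide +kernel

theorem k2 : addL (mulL (mulL py p1) p2) (mulL p1 py) = [] := by decide +kernel

theorem k3 : addL (mulL (mulL py p2) p3) (mulL p2 py) = [] := by decide +kernel

theorem k4 : addL (mulL (mulL py p3) [[]]) (mulL p3 py) = [] := by decide +kernel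

theorem use_k (a b : R) (h : Rels a b) (P Q P' : List (List Bool))
    (hk : addL (mulL (mulL Q P) P') (mulL P Q) = []) :
    sv a b Q * sv a b P * sv a b P' = sv a b P * sv a b Q := by
  have e := congrArg (sv a b) hk
  rw [sv_addL h.h2, sv_mulL a b h, sv_mulL a b h, sv_mulL a b h, sv_nil] at e
  exact eq_of_add h.h2 _ _ e

theorem cm_val (x y : Rˣ) (a b : R) (h : Rels a b) (P Q P' : List (List Bool))
    (hx : (x : R) = sv a b P) (hy : (y : R) = sv a b Q)
    (hk : addL (mulL (mulL Q P) P') (mulL P Q) = []) : ((cm x y : Rˣ) : R) = sv a b P' := by
  have e := use_k a b h P Q P' hk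
  rw [← hx, ← hy] at e
  have e2 : ((y * x : Rˣ) : R) * ((cm x y : Rˣ) : R) = (x : R) * y := by
    rw [← Units.val_mul, ← Units.val_mul]
    congr 1
    unfold cm
    group
  rw [Units.val_mul] at e2
  have e3 : ((y * x : Rˣ) : R) * ((cm x y : Rˣ) : R) = ((y * x : Rˣ) : R) * sv a b P' := by
    rw [Units.val_mul, e2, e]
  exact (Units.mul_right_inj (y * x)).mp e3

/-- the fourth Engel identity -/
theorem engel4 {G : Subgroup Rˣ} (hG : Cub G) (x y : Rˣ) (hx : x ∈ G) (hy : y ∈ G) : eng 4 x y = 1 := by
  have h := rels hG x y hx hy
  set a := (x : R) + 1 with ha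
  set b := (y : R) + 1 with hb
  have hxa : (x : R) = sv a b px := by
    unfold px
    rw [sv_cons, sv_cons, sv_nil, wv, wv, wv, ha]
    simp only [cond_false, mul_one, add_zero]
    rw [add_comm, add_assoc, h.h2, add_zero]
  have hyb : (y : R) = sv a b py := by
    unfold py
    rw [sv_cons, sv_cons, sv_nil, wv, wv, wv, hb]
    simp only [cond_true, mul_one, add_zero]
    rw [add_comm, add_assoc, h.h2, add_zero]
  have c1 := cm_val x y a b h px py p1 hxa hyb k1
  have c2 := cm_val (cm x y) y a b h p1 py p2 c1 hyb k2
  have c3 := cm_val (cm (cm x y) y) y a b h p2 py p3 c2 hyb k3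
  have c4 := cm_val (cm (cm (cm x y) y) y) y a b h p3 py [[]] c3 hyb k4
  apply Units.ext
  show ((cm (cm (cm (cm x y) y) y) y : Rˣ) : R) = _
  rw [c4, sv_cons, sv_nil, wv, add_zero, Units.val_one]

/-- the fourth power -/
theorem pow4 {G : Subgroup Rˣ} (hG : Cub G) (x : Rˣ) (hx : x ∈ G) : x ^ 4 = 1 := by
  have h3 := cub3 hG x hx
  have h2 := hG.1
  apply Units.ext
  rw [Units.val_pow_eq_pow_val, Units.val_one]
  set a := (x : R) + 1 with ha
  have hxa : (x : R) = 1 + a := by
    rw [ha, add_comm, add_assoc, h2, add_zero]
  rw [hxa]
  have e : (1 + a) ^ 4 = 1 + (a + a) + (a + a) + (a * a + a * a) + (a * a + a * a) + (a * a + a * a) +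
      (a * a * a) * (4 + a) := by noncomm_ring
  rw [e, h3, h2, h2]
  simp

end Tr

end Pool.Agent.MP_f7c5a7_al.E4
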