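import Pool.Agent.Lib.MP_f7c5a7_al.E4.Ext
import Pool.Agent.Lib.MP_f7c5a7_al.E4.Eng

/-!
# MP_f7c5a7_al: the groups, and the restricted product
-/

set_option autoImplicit false

namespace Pool.Agent.MP_f7c5a7_al.E4

theorem map_cm {U V : Type} [Group U] [Group V] (f : U →* V) (x y : U) : f (cm x y) = cm (f x) (f y) := by
  unfold cm
  rw [map_mul, map_mul, map_mul, map_inv, map_inv]

theorem map_eng {U V : Type} [Group U] [Group V] (f : U →* V) (x y : U) : ∀ k : ℕ,
    f (eng k x y) = eng k (f x) (f y)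
  | 0 => rfl
  | k + 1 => by rw [eng, eng, map_cm, map_eng f x y k]

/-- for every `k` there is a finite 4-Engel group of exponent 4 whose derived length is more than `k` -/
theorem exists_grp (k : ℕ) : ∃ (G : Type) (_ : Group G), Finite G ∧ (∀ x : G, x ^ 4 = 1) ∧
    (∀ x y : G, eng 4 x y = 1) ∧ derivedSeries G k ≠ ⊥ := by
  obtain ⟨L, hL, hder⟩ := der_ne k
  obtain ⟨C, i1, i2, D1, D2, h, r, m, hr, hm, hne⟩ := exists_ring L hL
  let _ := modI h
  have S := sysI h
  let rK : ℕ → Ks h := fun i => ⟨r i, (hr i).1⟩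
  let r' : ℕ → (Ks h ⧸ Is h) := fun i => Submodule.Quotient.mk (rK i)
  have hr' : ∀ i, Good (ww h) (r' i) := by
    intro i n
    obtain ⟨u, rfl⟩ := Submodule.mkQ_surjective _ n
    show ww h (Submodule.Quotient.mk u) (Submodule.Quotient.mk _) • Submodule.Quotient.mk _ = 0
    rw [ww_mk, mk_smul, Submodule.Quotient.mk_eq_zero]
    refine ⟨0, ?_⟩
    rw [map_zero]
    show (0 : C) = D1 ((u : C) * r i) * r i
    obtain ⟨_, h1, h2⟩ := hr i
    rw [h.l1]
    linear_combination (-(D1 (u : C))) * h1 - (u : C) * h2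
  have hbet : bet (ww h) r' L • (Submodule.Quotient.mk ⟨m, hm⟩ : Ks h ⧸ Is h) ≠ 0 := by
    have e1 : bet (ww h) r' L = Ideal.Quotient.mk (Js h)
        ((L.map (fun p => om h (rK p.1) (rK p.2))).prod) := by
      rw [map_list_prod, List.map_map]
      unfold bet
      congr 1
      apply List.map_congr_left
      intro p _
      exact ww_mk h _ _
    rw [e1, mk_smul]
    intro e2
    rw [Submodule.Quotient.mk_eq_zero] at e2
    obtain ⟨f, hf⟩ := e2
    refine hne f ?_
    rw [hf]
    show (((L.map (fun p => om h (rK p.1) (rK p.2))).prod : Zs h) : C) * m = _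
    congr 1
    have e3 := map_list_prod (Zs h).subtype (L.map (fun p => om h (rK p.1) (rK p.2)))
    rw [List.map_map] at e3
    exact e3
  have hd := hder _ _ (ww h) S r' hr' ⟨_, hbet⟩
  have hY : ∀ y ∈ Set.range r', Good (ww h) y := by
    rintro _ ⟨i, rfl⟩
    exact hr' i
  have hcub : Tr.Cub (grp S (Set.range r')) := ⟨S.ee, grp_cube S _ hY⟩
  have f1 : Finite (Zs h) := inferInstance
  have f2 : Finite (Ks h) := inferInstance
  have f3 : Finite (Zs h ⧸ Js h) := Finite.of_surjective _ Ideal.Quotient.mk_surjective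
  have f4 : Finite (Ks h ⧸ Is h) := Finite.of_surjective _ (Submodule.mkQ_surjective (Is h))
  have f5 : Finite (Module.End (Zs h ⧸ Js h) ((Ks h ⧸ Is h) × (Zs h ⧸ Js h))) := DFunLike.finite _
  have f6 : Finite (Module.End (Zs h ⧸ Js h) ((Ks h ⧸ Is h) × (Zs h ⧸ Js h)))ˣ :=
    Finite.of_injective (fun u => (u : Module.End (Zs h ⧸ Js h) ((Ks h ⧸ Is h) × (Zs h ⧸ Js h))))
      (fun _ _ e => Units.ext e)
  refine ⟨grp S (Set.range r'), inferInstance, inferInstance, ?_, ?_, hd⟩
  · intro x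
    apply Subtype.ext
    exact Tr.pow4 hcub x.1 x.2
  · intro x y
    apply Subtype.ext
    have e := map_eng (grp S (Set.range r')).subtype x y 4
    exact e.trans (Tr.engel4 hcub x.1 y.1 x.2 y.2)

/-- the elements of finite support of a product -/
def fsup (Gs : ℕ → Type) [∀ k, Group (Gs k)] : Subgroup (∀ k, Gs k) where
  carrier := {f | ∃ N, ∀ k, N ≤ k → f k = 1}
  mul_mem' := by
    rintro f g ⟨N, hN⟩ ⟨N', hN'⟩
    refine ⟨max N N', ?_⟩
    intro k hk
    rw [Pi.mul_apply, hN k ((le_max_left _ _).trans hk), hN' k ((le_max_right _ _).trans hk), mul_one]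
  one_mem' := ⟨0, fun _ _ => rfl⟩
  inv_mem' := by
    rintro f ⟨N, hN⟩
    refine ⟨N, ?_⟩
    intro k hk
    rw [Pi.inv_apply, hN k hk, _root_.inv_one]

theorem asm (Gs : ℕ → Type) [∀ k, Group (Gs k)] (hfin : ∀ k, Finite (Gs k)) (h4 : ∀ k (x : Gs k), x ^ 4 = 1)
    (hE : ∀ k (x y : Gs k), eng 4 x y = 1) (hd : ∀ k, derivedSeries (Gs k) k ≠ ⊥) :
    (∀ H : Subgroup (fsup Gs), H.FG → Finite H) ∧ (∀ x : fsup Gs, x ^ 4 = 1) ∧
    (∀ x y : fsup Gs, eng 4 x y = 1) ∧ ¬ Group.IsSolvable (fsup Gs) := by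
  refine ⟨?_, ?_, ?_, ?_⟩
  · intro H hH
    obtain ⟨T, hT⟩ := hH
    have hN : ∃ N, ∀ f ∈ T, ∀ k, N ≤ k → (f : ∀ k, Gs k) k = 1 := by
      classical
      choose N hN using fun f : fsup Gs => f.2
      refine ⟨T.sup N, ?_⟩
      intro f hf k hk
      exact hN f k ((Finset.le_sup hf).trans hk)
    obtain ⟨N, hN⟩ := hN
    have hH : ∀ f ∈ H, ∀ k, N ≤ k → (f : ∀ k, Gs k) k = 1 := by
      intro f hf
      rw [← hT] at hf
      induction hf using Subgroup.closure_induction with
      | mem x hx => exact hN x hx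
      | one => exact fun _ _ => rfl
      | mul x y _ _ hx hy =>
        intro k hk
        have : ((x * y : fsup Gs) : ∀ k, Gs k) k = (x : ∀ k, Gs k) k * (y : ∀ k, Gs k) k := rfl
        rw [this, hx k hk, hy k hk, mul_one]
      | inv x _ hx =>
        intro k hk
        have : ((x⁻¹ : fsup Gs) : ∀ k, Gs k) k = ((x : ∀ k, Gs k) k)⁻¹ := rfl
        rw [this, hx k hk, _root_.inv_one]
    have hinj : Function.Injective (fun (f : H) (k : Fin N) => ((f : fsup Gs) : ∀ k, Gs k) k) := by
      intro f g hfg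
      apply Subtype.ext
      apply Subtype.ext
      funext k
      by_cases hk : k < N
      · exact congrFun hfg ⟨k, hk⟩
      · rw [hH f f.2 k (not_lt.mp hk), hH g g.2 k (not_lt.mp hk)]
    have : ∀ k : Fin N, Finite (Gs k) := fun k => hfin k
    exact Finite.of_injective _ hinj
  · intro x
    apply Subtype.ext
    funext k
    exact h4 k _
  · intro x y
    apply Subtype.ext
    funext k
    have e := map_eng ((Pi.evalMonoidHom Gs k).comp (fsup Gs).subtype) x y 4
    exact e.trans (hE k _ _)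
  · intro hsol
    obtain ⟨n, hn⟩ := hsol.solvable
    classical
    have hsurj : Function.Surjective ((Pi.evalMonoidHom Gs n).comp (fsup Gs).subtype) := by
      intro g
      refine ⟨⟨Pi.mulSingle n g, n + 1, ?_⟩, ?_⟩
      · intro k hk
        rw [Pi.mulSingle_eq_of_ne (by omega)]
      · show (Pi.mulSingle n g : ∀ k, Gs k) n = g
        rw [Pi.mulSingle_eq_same]
    have e := map_derivedSeries_eq hsurj n
    rw [hn, Subgroup.map_bot] at e
    exact hd n e.symm

/-- a locally finite 4-Engel group of exponent 4 which is not solvable -/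
theorem main : ∃ (G : Type) (_ : Group G), (∀ H : Subgroup G, H.FG → Finite H) ∧ (∀ x : G, x ^ 4 = 1) ∧
    (∀ x y : G, eng 4 x y = 1) ∧ ¬ Group.IsSolvable G := by
  choose Gs i hf h4 hE hd using exists_grp
  exact ⟨fsup Gs, inferInstance, asm Gs hf h4 hE hd⟩

end Pool.Agent.MP_f7c5a7_al.E4
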