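import Pool.Agent.Lib.MP_f7c5a7_al.E4.Refl

/-!
# MP_f7c5a7_al: the relations which follow from `(g - 1) ^ 3 = 0` for the words `x y`, `x y⁻¹`, `x ^ 2 y`, `x y ^ 2`

`x = 1 + a`, `y = 1 + b`. The certificates were found by linear algebra.
-/

set_option autoImplicit false

namespace Pool.Agent.MP_f7c5a7_al.E4

namespace Tr

/-- one -/
def one : Tr := .n true .z .z

/-- `x = 1 + a` -/
def tx : Tr := .n true (.n true .z .z) .z

/-- `y = 1 + b` -/
def ty : Tr := .n true .z (.n true .z .z)

/-- `y⁻¹ = 1 + b + b ^ 2` -/
def tY : Tr := .n true .z (.n true .z (.n true .z .z))

/-- the cube of `g - 1` -/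
def cube (g : Tr) : Tr := pr 0 0 (mul (add g one) (mul (add g one) (add g one)))

/-- the relations which are used -/
def rel : ℕ → Tr
  | 0 => cube (mul tx ty)
  | 1 => cube (mul tx tY)
  | 2 => cube (mul tx (mul tx ty))
  | 3 => cube (mul tx (mul ty ty))
  | 4 => ws [[false, true, true, false], [false, false, true, true], [true, true, false, false]]
  | 5 => ws [[true, false, false, true], [true, true, false, false], [false, false, true, true]]
  | 6 => ws [[true, true, false, true], [true, false, true, true]]
  | 7 => ws [[false, false, true, false], [false, true, false, false]]
  | _ => .z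

/-- the first `n` relations -/
def relN (n i : ℕ) : Tr := bif Nat.blt i n then rel i else .z

/-- certificate T1 -/
def cT1 : List (List Bool × ℕ × List Bool) :=
    [([], 3, []), ([true], 3, []), ([false], 3, []), ([], 0, [true]), ([false], 0, []), 
    ([], 0, [false]), ([true], 1, []), ([false, false], 3, []), ([], 3, [true, true]), 
    ([], 0, [true, true]), ([false, false], 0, []), ([true, false], 3, []), ([false], 0, [false]), 
    ([true, false], 0, []), ([true], 1, [true]), ([true, false], 1, []), ([true], 3, [true, true]), 
    ([false], 3, [true, true]), ([true, false, false], 3, []), ([false, false], 0, [false]), 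
    ([true, false, false], 0, []), ([true, false], 0, [true]), ([true, false, false], 1, []), 
    ([true, false], 1, [true]), ([false, false], 3, [true, true]), ([true, false], 3, [true, true]), 
    ([true, false], 0, [true, true]), ([true, false, false], 0, [true]), 
    ([true, false, false], 1, [true]), ([true, false, false], 3, [true, true]), 
    ([true, false, false], 0, [true, true])]

/-- certificate T2 -/
def cT2 : List (List Bool × ℕ × List Bool) :=
    [([], 3, []), ([], 0, []), ([], 1, []), ([], 4, [true]), ([true], 4, []), ([], 5, [true]), 
    ([false], 3, []), ([], 0, [true]), ([], 0, [false]), ([true], 0, []), ([false], 1, []), 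
    ([true], 4, [true]), ([false, false], 3, []), ([], 3, [true, true]), ([], 0, [true, true]), 
    ([], 0, [false, false]), ([], 1, [true, true]), ([], 0, [true, false]), ([true, false], 0, []), 
    ([false, false], 1, []), ([true, true], 4, [true]), ([false], 0, [true, true]), 
    ([], 0, [true, true, false]), ([true, false, false], 0, []), ([], 0, [true, false, false]), 
    ([false, true], 4, [true, true]), ([true, false], 5, [true, true]), 
    ([], 4, [true, false, true, true]), ([true], 4, [false, true, true]), 
    ([], 5, [true, false, true, true]), ([false, false], 0, [true, true]), 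
    ([], 0, [true, true, false, false])]

/-- certificate T3 -/
def cT3 : List (List Bool × ℕ × List Bool) :=
    [([], 7, []), ([], 4, []), ([], 0, []), ([], 7, [false]), ([], 7, [true]), ([true], 7, []), 
    ([], 4, [false]), ([], 5, [false]), ([false], 5, []), ([], 0, [true]), ([false], 0, []), 
    ([], 0, [false]), ([], 4, [false, false]), ([], 0, [true, true]), ([false], 0, [true]), 
    ([false], 0, [false]), ([], 0, [true, false]), ([false, true], 7, [false]), 
    ([], 7, [true, false, false]), ([false], 0, [true, true]), ([], 0, [true, true, false]), 
    ([false], 0, [true, false]), ([false], 0, [true, true, false])]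

/-- certificate T4 -/
def cT4 : List (List Bool × ℕ × List Bool) :=
    [([], 7, []), ([], 4, []), ([], 7, [true]), ([false], 5, []), ([false], 0, []), 
    ([], 4, [false, false]), ([false], 5, [false]), ([false, true], 7, []), ([false], 0, [true]), 
    ([false], 0, [false]), ([false, true], 7, [false]), ([], 7, [true, false, false]), 
    ([false], 0, [true, true]), ([false], 0, [true, false]), ([false], 0, [true, true, false])]

/-- target T1 -/
def tT1 : Tr := ws [[false, true, true, false], [false, false, true, true], [true, true, false, false]]

theorem ok_T1 : isz (add tT1 (cs (relN 4) cT1)) = true := by decide +kernel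

/-- target T2 -/
def tT2 : Tr := ws [[true, true, false, true], [true, false, true, true]]

theorem ok_T2 : isz (add tT2 (cs (relN 6) cT2)) = true := by decide +kernel

/-- target T3 -/
def tT3 : Tr := ws [[false, false, true], [false, true, false], [true, false, false], [false, true, true], [true, false, true], [true, true, false]]

theorem ok_T3 : isz (add tT3 (cs (relN 8) cT3)) = true := by decide +kernel

/-- target T4 -/
def tT4 : Tr := ws [[false, true, false, true], [true, true, false, false]]

theorem ok_T4 : isz (add tT4 (cs (relN 8) cT4)) = true := by decide +kernel

end Tr

end Pool.Agent.MP_f7c5a7_al.E4
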