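import Pool.Agent.Lib.MP_f7c5a7_al.E4.Sys

/-!
# MP_f7c5a7_al: `(g - 1) ^ 3 = 0`
-/

set_option autoImplicit false

namespace Pool.Agent.MP_f7c5a7_al.E4

variable {B M : Type} [CommRing B] [AddCommGroup M] [Module B M] {w : M → M → B}

/-- a map of rank one -/
def rk (S : Sys B M w) (l x : M) : M →ₗ[B] M where
  toFun u := w u l • x
  map_add' u v := by rw [S.addl, add_smul]
  map_smul' b u := by rw [S.smull, mul_smul, RingHom.id_apply]

theorem rk_apply (S : Sys B M w) (l x u : M) : rk S l x u = w u l • x := rfl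

theorem Sys.t2 (S : Sys B M w) (u : M) : (2 : B) • u = 0 := by rw [S.two, zero_smul]

theorem inv_step (S : Sys B M w) (Y : Set M) (hY : ∀ y ∈ Y, Good w y) (x : M) (hx : x ∈ Y)
    (g : Module.End B (M × B)) (Φ : M →ₗ[B] M) (t a : B) (μ : M) (h : Inv S Y g Φ t a μ) :
    Inv S Y ((1 + opX S x) * g) (Φ + rk S (μ + Φ μ) x) (t + w (μ + Φ μ) x) (a + w μ x)
      (μ + x + a • x) := by
  have gx : ∀ u, w u x • x = 0 := hY x hx
  have f2 : ∀ c u, w c x * w u x = 0 := by
    intro c u
    have := congrArg (fun z => w u z) (gx c)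
    simp only [S.smulr, S.zeror] at this
    exact this
  have f2' : ∀ c u, w c x * w x u = 0 := by
    intro c u
    rw [S.symm x u]
    exact f2 c u
  have tl : t • (μ + Φ μ) = 0 := by
    rw [smul_add, ← map_smul, h.A5, map_zero, add_zero]
  have al : a • (μ + Φ μ) = 0 := by
    rw [smul_add, ← map_smul, h.A5', map_zero, add_zero]
  have twm : ∀ u, t * w u μ = 0 := by
    intro u
    rw [← S.smulr, h.A5, S.zeror]
  have awm : ∀ u, a * w u μ = 0 := by
    intro u
    rw [← S.smulr, h.A5', S.zeror]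
  have twl : ∀ u, t * w u (μ + Φ μ) = 0 := by
    intro u
    rw [← S.smulr, tl, S.zeror]
  have awl : ∀ u, a * w u (μ + Φ μ) = 0 := by
    intro u
    rw [← S.smulr, al, S.zeror]
  have wml : w μ (μ + Φ μ) = 0 := by
    rw [S.addr, S.alt, h.A8, add_zero]
  have wxl : ∀ u, w u (μ + Φ μ) = w (u + Φ u) μ := by
    intro u
    rw [S.addr, S.addl, h.A1 u μ, twm, add_zero]
  have tax : ∀ u : M, (t * a) • u = 0 := by
    intro u
    rw [mul_smul, ← h.A6 u, smul_comm, h.A5, smul_zero]
  have wlm : ∀ u : M, w u (μ + Φ μ) • μ = t • u := by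
    intro u
    rw [wxl, h.A6, h.A7]
  refine ⟨?_, ?_, ?_, ?_, ?_, ?_, ?_, ?_, ?_, ?_, ?_⟩
  · intro u b
    have e1 : ((1 + opX S x) * g) (u, b) = g (u, b) + opX S x (g (u, b)) := rfl
    rw [e1, h.g1 u b, opX_apply]
    have key : w u ((μ + x + a • x) + (Φ + rk S (μ + Φ μ) x) (μ + x + a • x)) =
        w u (μ + Φ μ) + w u x + w (Φ u) x := by
      have q1 : w (μ + x + a • x) (μ + Φ μ) * w u x = 0 := by
        rw [S.addl, S.addl, S.smull, wml]
        have := f2' u (μ + Φ μ)
        linear_combination (1 + a) * this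
      have q2 : a * (w u x + w u (Φ x)) = t * w u x := by
        have := congrArg (fun z => w u z) (h.A7 x)
        simp only [S.smulr, S.addr] at this
        exact this
      rw [LinearMap.add_apply, rk_apply]
      simp only [map_add, map_smul, S.addr, S.smulr] at q1 q2 ⊢
      have q3 := h.A1 u x
      linear_combination q1 + q2 - q3
    rw [key]
    apply Prod.ext
    · simp only [Prod.fst_add, LinearMap.add_apply, rk_apply]
      module
    · simp only [Prod.snd_add, S.addl, S.smull]
      ring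
  · intro u v
    rw [LinearMap.add_apply, LinearMap.add_apply, rk_apply, rk_apply, S.addl, S.smull, S.addr (Φ v), S.smulr]
    have q1 := congrArg (fun z => w u z) (S.J (μ + Φ μ) x v)
    simp only [S.addr, S.smulr, S.zeror] at q1
    have q2 := h.A1 u v
    simp only [S.addr, S.addl] at q1 q2 ⊢
    linear_combination q2 + q1 - (w v μ * w u x + w v (Φ μ) * w u x + (w μ x + w (Φ μ) x) * w u v) * S.two
  · intro u v z
    rw [LinearMap.add_apply, LinearMap.add_apply, rk_apply, rk_apply, S.addl, S.smull]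
    have q1 := h.A2 u v z
    have q2 := S.Q u v z (μ + Φ μ) x
    linear_combination (norm := module) q1 + q2 - (w v z * w (μ + Φ μ) x) • S.t2 u
  · intro y hy
    rw [LinearMap.add_apply, rk_apply, S.addl, S.smull, h.A3 y hy, zero_add]
    have := congrArg (fun z => w (μ + Φ μ) z) (hY y hy x)
    simp only [S.smulr, S.zeror] at this
    rw [S.symm y, mul_comm, this]
  · intro u
    simp only [LinearMap.add_apply, rk_apply, map_add, map_smul, h.A4]
    have q1 := h.A2 u (μ + Φ μ) x
    have q2 : (t * w (μ + Φ μ) x) • u = 0 := by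
      rw [S.symm _ x, twl, zero_smul]
    have q3 := gx (μ + Φ μ)
    rw [S.symm _ x] at q3
    linear_combination (norm := module) q1 + q2 + (w u (μ + Φ μ)) • q3
  · have q1 := wlm x
    rw [S.symm x] at q1
    have q2 := tax x
    have q3 := gx (μ + Φ μ)
    have q4 := h.A5
    linear_combination (norm := module) q1 + q2 + (1 + a) • q3 + q4 + t • S.t2 x
  · have q1 := h.A6 x
    rw [S.symm x] at q1
    have q3 := gx μ
    have q4 := h.A5'
    have q5 : (a * a) • x = 0 := by rw [h.A9, zero_smul]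
    linear_combination (norm := module) q1 + q5 + (1 + a) • q3 + q4 + a • S.t2 x
  · intro u
    have q1 := h.A6 u
    have q2 := S.J u μ x
    rw [S.symm x u] at q2
    have q3 := gx u
    have q4 : (a * w μ x) • u = 0 := by
      rw [S.symm μ x, awm, zero_smul]
    rw [S.addr, S.addr, S.smulr]
    linear_combination (norm := module) q1 + (1 + a) • q2 + ((1 + a) * (1 + a)) • q3 - q4 - (w μ x) • S.t2 u
  · intro u
    have q1 := h.A7 u
    have q2 : (a * w u (μ + Φ μ)) • x = 0 := by rw [awl, zero_smul]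
    have q3 := h.A2 μ x u
    have q4 : (t * w x u) • μ = 0 := by
      rw [mul_comm, mul_smul, h.A5, smul_zero]
    have q5 := gx μ
    rw [LinearMap.add_apply, rk_apply, S.addl μ]
    linear_combination (norm := module) q1 + q2 + q3 + q4 + (w u (μ + Φ μ)) • q5 - (w (Φ μ) x) • S.t2 u
  · have q1 : w x (Φ x) = 0 := by
      have e1 := h.A1 x x
      rw [h.A3 x hx, S.alt, mul_zero, add_zero] at e1
      exact e1.symm
    have q2 := h.A1 x μ
    rw [twm, add_zero] at q2
    have q3 : w (μ + x + a • x) (μ + Φ μ) * w (μ + x + a • x) x = 0 := by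
      have e1 : w (μ + x + a • x) x = w μ x := by
        rw [S.addl, S.addl, S.smull, S.alt]
        ring
      rw [e1, S.addl, S.addl, S.smull, wml]
      have := f2' μ (μ + Φ μ)
      linear_combination (1 + a) * this
    rw [LinearMap.add_apply, rk_apply, S.addr, S.smulr, q3, add_zero]
    simp only [map_add, map_smul, S.addr, S.addl, S.smulr, S.smull, h.A8, q1]
    rw [S.symm μ (Φ x), ← q2]
    linear_combination ((1 + a) * w (Φ x) μ) * S.two
  · have q1 := f2 μ μ
    have q2 := h.A9
    linear_combination q1 + q2 + (a * w μ x) * S.two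

theorem inv_cube (S : Sys B M w) (Y : Set M)
    (g : Module.End B (M × B)) (Φ : M →ₗ[B] M) (t a : B) (μ : M) (h : Inv S Y g Φ t a μ) :
    (g - 1) ^ 3 = 0 := by
  have al : a • (μ + Φ μ) = 0 := by
    rw [smul_add, ← map_smul, h.A5', map_zero, add_zero]
  have awl : ∀ u, a * w u (μ + Φ μ) = 0 := by
    intro u
    rw [← S.smulr, al, S.zeror]
  have wml : w μ (μ + Φ μ) = 0 := by
    rw [S.addr, S.alt, h.A8, add_zero]
  have wpl : w (Φ μ) (μ + Φ μ) = 0 := by
    rw [S.addr, S.alt, S.symm, h.A8, add_zero]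
  have n1 : ∀ u b, (g - 1) (u, b) = (Φ u + b • μ, a * b + w u (μ + Φ μ)) := by
    intro u b
    have e1 : (g - 1) (u, b) = g (u, b) - (u, b) := rfl
    rw [e1, h.g1 u b]
    apply Prod.ext
    · simp only [Prod.fst_sub]
      abel
    · simp only [Prod.snd_sub]
      ring
  have n2 : ∀ u b, (g - 1) ((g - 1) (u, b)) = (b • Φ μ + w u (μ + Φ μ) • μ, w (Φ u) (μ + Φ μ)) := by
    intro u b
    rw [n1 u b, n1]
    apply Prod.ext
    · show Φ (Φ u + b • μ) + (a * b + w u (μ + Φ μ)) • μ = b • Φ μ + w u (μ + Φ μ) • μ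
      rw [map_add, map_smul, h.A4, zero_add, add_smul, mul_comm a b, mul_smul, h.A5', smul_zero, zero_add]
    · show a * (a * b + w u (μ + Φ μ)) + w (Φ u + b • μ) (μ + Φ μ) = w (Φ u) (μ + Φ μ)
      rw [S.addl, S.smull, wml, mul_add, awl, ← mul_assoc, h.A9]
      ring
  have n3 : ∀ u b, (g - 1) ((g - 1) ((g - 1) (u, b))) = 0 := by
    intro u b
    rw [n2 u b, n1]
    apply Prod.ext
    · show Φ (b • Φ μ + w u (μ + Φ μ) • μ) + w (Φ u) (μ + Φ μ) • μ = 0
      rw [map_add, map_smul, map_smul, h.A4, smul_zero, zero_add, h.A2, S.symm _ μ, wml, mul_zero, zero_smul]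
    · show a * w (Φ u) (μ + Φ μ) + w (b • Φ μ + w u (μ + Φ μ) • μ) (μ + Φ μ) = 0
      rw [awl, S.addl, S.smull, S.smull, wml, wpl]
      ring
  apply LinearMap.ext
  rintro ⟨u, b⟩
  rw [pow_succ, pow_two]
  exact n3 u b

end Pool.Agent.MP_f7c5a7_al.E4
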