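import Pool.Agent.Lib.MP_f7c5a7_al.E4.Der

/-!
# MP_f7c5a7_al: commutative rings with divided powers of a nilpotent derivation

`C` is a commutative ring of characteristic `2` with a derivation `D1` and an operator `D2` (the divided square of `D1`),
`M = ker D2 / im D2`, `B = (ker D1 ∩ ker D2) / im (D1 D2)`, and `w u v = D1 (u v)`.
-/

set_option autoImplicit false

namespace Pool.Agent.MP_f7c5a7_al.E4

/-- a commutative ring of characteristic 2 with two operators -/
structure DR (C : Type) [CommRing C] (D1 D2 : C →+ C) : Prop where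
  two : (2 : C) = 0
  l1 : ∀ f g, D1 (f * g) = D1 f * g + f * D1 g
  l2 : ∀ f g, D2 (f * g) = D2 f * g + D1 f * D1 g + f * D2 g
  s1 : ∀ f, D1 (D1 f) = 0
  s2 : ∀ f, D2 (D2 f) = 0
  c12 : ∀ f, D1 (D2 f) = D2 (D1 f)

section

variable {C : Type} [CommRing C] {D1 D2 : C →+ C} (h : DR C D1 D2)

include h in
theorem DR.cc (x : C) : x + x = 0 := by rw [← two_mul, h.two, zero_mul]

include h in
theorem DR.one1 : D1 1 = 0 := by
  have e := h.l1 1 1
  rw [mul_one, mul_one, one_mul] at e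
  exact left_eq_add.mp e

include h in
theorem DR.one2 : D2 1 = 0 := by
  have e := h.l2 1 1
  rw [mul_one, mul_one, one_mul, h.one1, mul_zero, add_zero] at e
  exact left_eq_add.mp e

/-- the ring of constants -/
def Zs : Subring C where
  carrier := {z | D1 z = 0 ∧ D2 z = 0}
  mul_mem' := by
    rintro a b ⟨a1, a2⟩ ⟨b1, b2⟩
    refine ⟨?_, ?_⟩
    · rw [h.l1, a1, b1]; ring
    · rw [h.l2, a1, b1, a2, b2]; ring
  one_mem' := ⟨h.one1, h.one2⟩
  add_mem' := by
    rintro a b ⟨a1, a2⟩ ⟨b1, b2⟩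
    refine ⟨?_, ?_⟩
    · rw [map_add, a1, b1, add_zero]
    · rw [map_add, a2, b2, add_zero]
  zero_mem' := ⟨map_zero _, map_zero _⟩
  neg_mem' := by
    rintro a ⟨a1, a2⟩
    refine ⟨?_, ?_⟩
    · rw [map_neg, a1, neg_zero]
    · rw [map_neg, a2, neg_zero]

/-- the kernel of `D2` -/
def Ks : Submodule (Zs h) C where
  carrier := {u | D2 u = 0}
  add_mem' := by
    intro a b a2 b2
    show D2 (a + b) = 0
    rw [map_add, show D2 a = 0 from a2, show D2 b = 0 from b2, add_zero]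
  zero_mem' := map_zero _
  smul_mem' := by
    intro z u hu
    have z1 : D1 (z : C) = 0 := z.2.1
    have z2 : D2 (z : C) = 0 := z.2.2
    show D2 ((z : C) * u) = 0
    rw [h.l2, z1, z2, show D2 u = 0 from hu]
    ring

/-- the image of `D2` -/
def Is : Submodule (Zs h) (Ks h) where
  carrier := {u | ∃ f, D2 f = u}
  add_mem' := by
    rintro a b ⟨f, hf⟩ ⟨g, hg⟩
    exact ⟨f + g, by rw [map_add, hf, hg]; rfl⟩
  zero_mem' := ⟨0, by rw [map_zero]; rfl⟩
  smul_mem' := by
    rintro z u ⟨f, hf⟩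
    have z1 : D1 (z : C) = 0 := z.2.1
    have z2 : D2 (z : C) = 0 := z.2.2
    refine ⟨(z : C) * f, ?_⟩
    show D2 ((z : C) * f) = (z : C) * (u : C)
    rw [h.l2, z1, z2, hf]
    ring

/-- the ideal of the `D1 (D2 f)` -/
def Js : Ideal (Zs h) where
  carrier := {z | ∃ f, D1 (D2 f) = z}
  add_mem' := by
    rintro a b ⟨f, hf⟩ ⟨g, hg⟩
    exact ⟨f + g, by rw [map_add, map_add, hf, hg]; rfl⟩
  zero_mem' := ⟨0, by rw [map_zero, map_zero]; rfl⟩
  smul_mem' := by
    rintro z u ⟨f, hf⟩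
    have z1 : D1 (z : C) = 0 := z.2.1
    have z2 : D2 (z : C) = 0 := z.2.2
    refine ⟨(z : C) * f, ?_⟩
    show D1 (D2 ((z : C) * f)) = (z : C) * (u : C)
    rw [h.l2, z1, z2, zero_mul, zero_mul, zero_add, zero_add, h.l1, z1, hf, zero_mul, zero_add]

theorem tors : Module.IsTorsionBySet (Zs h) (Ks h ⧸ Is h) (Js h : Set (Zs h)) := by
  intro m a
  obtain ⟨⟨z, hz⟩, ⟨f, hf⟩⟩ := a
  obtain ⟨u, rfl⟩ := Submodule.mkQ_surjective _ m
  show (⟨z, hz⟩ : Zs h) • (Submodule.Quotient.mk u : Ks h ⧸ Is h) = 0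
  rw [← Submodule.Quotient.mk_smul, Submodule.Quotient.mk_eq_zero]
  refine ⟨D1 f * u, ?_⟩
  have hu : D2 (u : C) = 0 := u.2
  show D2 (D1 f * (u : C)) = z * (u : C)
  have hf' : D1 (D2 f) = z := hf
  rw [h.l2, h.s1, hu, ← h.c12, hf']
  ring

/-- the values of the form, before passing to the quotient -/
def om (u v : Ks h) : Zs h := ⟨D1 ((u : C) * v), by
  refine ⟨h.s1 _, ?_⟩
  have hu : D2 (u : C) = 0 := u.2
  have hv : D2 (v : C) = 0 := v.2
  rw [← h.c12, h.l2, hu, hv, zero_mul, mul_zero, zero_add, add_zero, h.l1, h.s1, h.s1]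
  ring⟩

/-- the form -/
noncomputable def ww (m n : Ks h ⧸ Is h) : Zs h ⧸ Js h :=
  Ideal.Quotient.mk (Js h) (om h (Function.surjInv (Submodule.mkQ_surjective (Is h)) m)
    (Function.surjInv (Submodule.mkQ_surjective (Is h)) n))

theorem om_symm (u v : Ks h) : om h u v = om h v u := by
  apply Subtype.ext
  show D1 ((u : C) * v) = D1 ((v : C) * u)
  rw [mul_comm]

theorem om_congr (u u' v : Ks h) (e : u - u' ∈ Is h) :
    om h u v - om h u' v ∈ Js h := by
  obtain ⟨f, hf⟩ := e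
  refine ⟨f * v, ?_⟩
  have hv : D2 (v : C) = 0 := v.2
  have hf' : D2 f = (u : C) - u' := hf
  show D1 (D2 (f * (v : C))) = D1 ((u : C) * v) - D1 ((u' : C) * v)
  rw [h.l2, hv, mul_zero, add_zero, map_add, hf', h.l1 (D1 f), h.s1, h.s1, zero_mul, mul_zero, add_zero,
    add_zero, sub_mul, map_sub]

theorem ww_mk (u v : Ks h) : ww h (Submodule.Quotient.mk u) (Submodule.Quotient.mk v) =
    Ideal.Quotient.mk (Js h) (om h u v) := by
  unfold ww
  rw [Ideal.Quotient.mk_eq_mk_iff_sub_mem]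
  set u' := Function.surjInv (Submodule.mkQ_surjective (Is h)) (Submodule.Quotient.mk u) with hu'
  set v' := Function.surjInv (Submodule.mkQ_surjective (Is h)) (Submodule.Quotient.mk v) with hv'
  have e1 : u' - u ∈ Is h := by
    rw [← Submodule.Quotient.eq]
    exact Function.surjInv_eq (Submodule.mkQ_surjective (Is h)) (Submodule.Quotient.mk u)
  have e2 : v' - v ∈ Is h := by
    rw [← Submodule.Quotient.eq]
    exact Function.surjInv_eq (Submodule.mkQ_surjective (Is h)) (Submodule.Quotient.mk v)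
  have e3 := om_congr h u' u v' e1
  have e4 := om_congr h v' v u e2
  rw [om_symm h v' u, om_symm h v u] at e4
  have := (Js h).add_mem e3 e4
  rwa [sub_add_sub_cancel] at this

/-- the module structure -/
@[instance_reducible] noncomputable def modI : Module (Zs h ⧸ Js h) (Ks h ⧸ Is h) := (tors h).module

theorem mk_smul (z : Zs h) (u : Ks h) :
    letI := modI h
    (Ideal.Quotient.mk (Js h) z : Zs h ⧸ Js h) • (Submodule.Quotient.mk u : Ks h ⧸ Is h) =
      Submodule.Quotient.mk (z • u) := by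
  let _ := modI h
  exact Module.IsTorsionBySet.mk_smul (tors h) z _

theorem sysI :
    letI := modI h
    Sys (Zs h ⧸ Js h) (Ks h ⧸ Is h) (ww h) := by
  let _ := modI h
  have two' : (2 : Zs h) = 0 := by
    apply Subtype.ext
    exact h.two
  refine ⟨?_, ?_, ?_, ?_, ?_, ?_, ?_⟩
  · have : (2 : Zs h ⧸ Js h) = Ideal.Quotient.mk (Js h) (2 : Zs h) := (map_ofNat _ 2).symm
    rw [this, two', map_zero]
  · intro m n k
    obtain ⟨u, rfl⟩ := Submodule.mkQ_surjective _ m
    obtain ⟨v, rfl⟩ := Submodule.mkQ_surjective _ n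
    obtain ⟨x, rfl⟩ := Submodule.mkQ_surjective _ k
    simp only [Submodule.mkQ_apply]
    rw [← Submodule.Quotient.mk_add, ww_mk, ww_mk, ww_mk, ← map_add]
    congr 1
    apply Subtype.ext
    show D1 (((u : C) + v) * x) = D1 ((u : C) * x) + D1 ((v : C) * x)
    rw [add_mul, map_add]
  · intro b m n
    obtain ⟨z, rfl⟩ := Ideal.Quotient.mk_surjective b
    obtain ⟨u, rfl⟩ := Submodule.mkQ_surjective _ m
    obtain ⟨v, rfl⟩ := Submodule.mkQ_surjective _ n
    simp only [Submodule.mkQ_apply]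
    rw [mk_smul, ww_mk, ww_mk, ← map_mul]
    congr 1
    apply Subtype.ext
    show D1 (((z : C) * u) * v) = (z : C) * D1 ((u : C) * v)
    have hz : D1 (z : C) = 0 := z.2.1
    rw [mul_assoc, h.l1, hz]
    ring
  · intro m n
    obtain ⟨u, rfl⟩ := Submodule.mkQ_surjective _ m
    obtain ⟨v, rfl⟩ := Submodule.mkQ_surjective _ n
    simp only [Submodule.mkQ_apply]
    rw [ww_mk, ww_mk, om_symm]
  · intro m
    obtain ⟨u, rfl⟩ := Submodule.mkQ_surjective _ m
    simp only [Submodule.mkQ_apply]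
    rw [ww_mk]
    have : om h u u = 0 := by
      apply Subtype.ext
      show D1 ((u : C) * u) = 0
      rw [h.l1, mul_comm, h.cc]
    rw [this, map_zero]
  · intro m n k
    obtain ⟨u, rfl⟩ := Submodule.mkQ_surjective _ m
    obtain ⟨v, rfl⟩ := Submodule.mkQ_surjective _ n
    obtain ⟨x, rfl⟩ := Submodule.mkQ_surjective _ k
    simp only [Submodule.mkQ_apply]
    rw [ww_mk, ww_mk, ww_mk, mk_smul, mk_smul, mk_smul, ← Submodule.Quotient.mk_add,
      ← Submodule.Quotient.mk_add, Submodule.Quotient.mk_eq_zero]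
    refine ⟨0, ?_⟩
    rw [map_zero]
    show (0 : C) = D1 ((u : C) * v) * x + D1 ((v : C) * x) * u + D1 ((x : C) * u) * v
    rw [h.l1, h.l1, h.l1]
    linear_combination (-(D1 (u : C) * v * x + u * D1 (v : C) * x + u * v * D1 (x : C))) * h.two
  · intro m n k n' k'
    obtain ⟨u, rfl⟩ := Submodule.mkQ_surjective _ m
    obtain ⟨v, rfl⟩ := Submodule.mkQ_surjective _ n
    obtain ⟨x, rfl⟩ := Submodule.mkQ_surjective _ k
    obtain ⟨v', rfl⟩ := Submodule.mkQ_surjective _ n'
    obtain ⟨x', rfl⟩ := Submodule.mkQ_surjective _ k'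
    simp only [Submodule.mkQ_apply]
    rw [ww_mk, ww_mk, ww_mk, ww_mk, ww_mk, ww_mk, ← map_mul, ← map_mul, ← map_mul, mk_smul, mk_smul,
      mk_smul, ← Submodule.Quotient.mk_add, ← Submodule.Quotient.mk_add, Submodule.Quotient.mk_eq_zero]
    refine ⟨(u : C) * v * x * v' * x', ?_⟩
    show D2 ((u : C) * v * x * v' * x') = (D1 ((u : C) * v') * D1 ((x' : C) * v)) * x +
      (D1 ((u : C) * v) * D1 ((x : C) * v')) * x' + (D1 ((v : C) * x) * D1 ((v' : C) * x')) * u
    have hu : D2 (u : C) = 0 := u.2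
    have hv : D2 (v : C) = 0 := v.2
    have hx : D2 (x : C) = 0 := x.2
    have hv' : D2 (v' : C) = 0 := v'.2
    have hx' : D2 (x' : C) = 0 := x'.2
    simp only [h.l1, h.l2, hu, hv, hx, hv', hx']
    linear_combination (-(D1 (v : C) * D1 (v' : C) * u * x * x')) * h.two

end

end Pool.Agent.MP_f7c5a7_al.E4
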