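import Pool.Agent.Lib.MP_f7c5a7_al.E4.Grp

/-!
# MP_f7c5a7_al: the derived series
-/

set_option autoImplicit false

namespace Pool.Agent.MP_f7c5a7_al.E4

open scoped commutatorElement

/-- the derived series of a subgroup, inside the ambient group -/
def dser {U : Type} [Group U] (G : Subgroup U) : ℕ → Subgroup U
  | 0 => G
  | k + 1 => ⁅dser G k, dser G k⁆

theorem dser_eq {U : Type} [Group U] (G : Subgroup U) (k : ℕ) :
    dser G k = (derivedSeries G k).map G.subtype := by
  induction k with
  | zero =>
    show G = (⊤ : Subgroup G).map G.subtype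
    rw [← MonoidHom.range_eq_map, Subgroup.range_subtype]
  | succ k ih =>
    show ⁅dser G k, dser G k⁆ = _
    rw [ih, derivedSeries_succ, Subgroup.map_commutator]

/-- the indices of a list of pairs -/
def idx (L : List (ℕ × ℕ)) : List ℕ := L.flatMap (fun p => [p.1, p.2])

theorem idx_cons (p : ℕ × ℕ) (L : List (ℕ × ℕ)) : idx (p :: L) = p.1 :: p.2 :: idx L := rfl

theorem idx_append (L L' : List (ℕ × ℕ)) : idx (L ++ L') = idx L ++ idx L' := by
  unfold idx
  rw [List.flatMap_append]

variable {B M : Type} [CommRing B] [AddCommGroup M] [Module B M] {w : M → M → B}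

/-- the product of the values of the form on a list of pairs -/
def bet (w : M → M → B) (r : ℕ → M) (L : List (ℕ × ℕ)) : B :=
  (L.map (fun p => w (r p.1) (r p.2))).prod

omit [AddCommGroup M] [Module B M] in
theorem bet_nil (r : ℕ → M) : bet w r [] = 1 := rfl

omit [AddCommGroup M] [Module B M] in
theorem bet_cons (r : ℕ → M) (p : ℕ × ℕ) (L : List (ℕ × ℕ)) :
    bet w r (p :: L) = w (r p.1) (r p.2) * bet w r L := by
  unfold bet
  rw [List.map_cons, List.prod_cons]

omit [AddCommGroup M] [Module B M] in
theorem bet_append (r : ℕ → M) (L L' : List (ℕ × ℕ)) :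
    bet w r (L ++ L') = bet w r L * bet w r L' := by
  unfold bet
  rw [List.map_append, List.prod_append]

theorem good_smul (S : Sys B M w) (x : M) (hx : Good w x) (b : B) : Good w (b • x) := by
  intro u
  rw [S.smulr, smul_smul, mul_comm, ← mul_assoc, mul_smul, hx, smul_zero]

theorem w_sq (S : Sys B M w) (x y : M) (hy : Good w y) : w x y * w x y = 0 := by
  have := congrArg (fun z => w x z) (hy x)
  simp only [S.smulr, S.zeror] at this
  exact this

theorem bet_sq (S : Sys B M w) (r : ℕ → M) (hr : ∀ i, Good w (r i)) (L : List (ℕ × ℕ)) (hL : L ≠ []) :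
    bet w r L * bet w r L = 0 := by
  cases L with
  | nil => exact absurd rfl hL
  | cons p L =>
    rw [bet_cons]
    have := w_sq S (r p.1) (r p.2) (hr _)
    linear_combination (bet w r L * bet w r L) * this

/-- the generators are in the group -/
theorem gen_mem (S : Sys B M w) (r : ℕ → M) (hr : ∀ i, Good w (r i)) (m : ℕ) :
    ∃ g ∈ grp S (Set.range r), (g : Module.End B (M × B)) = 1 + opX S (r m) :=
  ⟨unitOf S.ee (opX S (r m)) (opX_sq S _ (hr m)), Subgroup.subset_closure ⟨r m, ⟨m, rfl⟩, rfl⟩, rfl⟩

theorem comm_XX (S : Sys B M w) (x y : M) (hx : Good w x) (hy : Good w y)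
    (g h : (Module.End B (M × B))ˣ) (hg : (g : Module.End B (M × B)) = 1 + opX S x)
    (hh : (h : Module.End B (M × B)) = 1 + opX S y) :
    ((⁅g, h⁆ : (Module.End B (M × B))ˣ) : Module.End B (M × B)) = 1 + opH B M (w x y) := by
  rw [comm_inv S.ee g h _ _ hg hh (opX_sq S x hx) (opX_sq S y hy) (opX_mid S x y hx) (opX_mid S y x hy),
    opX_anti]

theorem comm_HX (S : Sys B M w) (c : B) (x : M) (hc : c * c = 0) (hx : Good w x)
    (g h : (Module.End B (M × B))ˣ) (hg : (g : Module.End B (M × B)) = 1 + opH B M c)
    (hh : (h : Module.End B (M × B)) = 1 + opX S x) :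
    ((⁅g, h⁆ : (Module.End B (M × B))ˣ) : Module.End B (M × B)) = 1 + opX S (c • x) := by
  rw [comm_inv S.ee g h _ _ hg hh (opH_sq c hc) (opX_sq S x hx) (opHXH S c x) (opXHX S c x),
    opHX]

theorem der_XH (k : ℕ) :
    (∀ i : ℕ, ∃ (e : ℕ) (L : List (ℕ × ℕ)), i ≤ e ∧ (∀ n ∈ idx L, i ≤ n ∧ n < e) ∧ (idx L).Nodup ∧
      ∀ (B M : Type) [CommRing B] [AddCommGroup M] [Module B M] (w : M → M → B) (S : Sys B M w)
        (r : ℕ → M), (∀ i, Good w (r i)) → ∀ m, e ≤ m → ∃ g ∈ dser (grp S (Set.range r)) k,
        (g : Module.End B (M × B)) = 1 + opX S (bet w r L • r m)) ∧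
    (∀ i : ℕ, ∃ (e : ℕ) (L : List (ℕ × ℕ)), i ≤ e ∧ (∀ n ∈ idx L, i ≤ n ∧ n < e) ∧ (idx L).Nodup ∧ L ≠ [] ∧
      ∀ (B M : Type) [CommRing B] [AddCommGroup M] [Module B M] (w : M → M → B) (S : Sys B M w)
        (r : ℕ → M), (∀ i, Good w (r i)) → ∃ g ∈ dser (grp S (Set.range r)) k,
        (g : Module.End B (M × B)) = 1 + opH B M (bet w r L)) := by
  induction k with
  | zero =>
    constructor
    · intro i
      refine ⟨i, [], le_refl _, by intro n hn; exact absurd hn (by simp [idx]), by simp [idx], ?_⟩
      intro B M _ _ _ w S r hr m hm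
      rw [bet_nil, one_smul]
      exact gen_mem S r hr m
    · intro i
      refine ⟨i + 2, [(i, i + 1)], by omega, ?_, ?_, by simp, ?_⟩
      · intro n hn
        simp only [idx, List.flatMap_cons, List.flatMap_nil, List.append_nil, List.mem_cons,
          List.not_mem_nil, or_false] at hn
        omega
      · simp [idx]
      · intro B M _ _ _ w S r hr
        obtain ⟨g, hg, hg'⟩ := gen_mem S r hr i
        obtain ⟨h, hh, hh'⟩ := gen_mem S r hr (i + 1)
        refine ⟨⁅g, h⁆, ?_, ?_⟩
        · show ⁅g, h⁆ ∈ grp S (Set.range r)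
          rw [commutatorElement_def]
          exact mul_mem (mul_mem (mul_mem hg hh) (inv_mem hg)) (inv_mem hh)
        · rw [comm_XX S _ _ (hr _) (hr _) g h hg' hh', bet_cons, bet_nil, mul_one]
  | succ k ih =>
    obtain ⟨ihX, ihH⟩ := ih
    constructor
    · intro i
      obtain ⟨e1, L1, h1, b1, n1, ne1, hH⟩ := ihH i
      obtain ⟨e2, L2, h2, b2, n2, hX⟩ := ihX e1
      refine ⟨e2, L1 ++ L2, h1.trans h2, ?_, ?_, ?_⟩
      · intro n hn
        rw [idx_append, List.mem_append] at hn
        rcases hn with hn | hn
        · have := b1 n hn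
          omega
        · have := b2 n hn
          omega
      · rw [idx_append]
        refine List.Nodup.append n1 n2 ?_
        intro n hn1 hn2
        have := b1 n hn1
        have := b2 n hn2
        omega
      · intro B M _ _ _ w S r hr m hm
        obtain ⟨g, hg, hg'⟩ := hH B M w S r hr
        obtain ⟨h, hh, hh'⟩ := hX B M w S r hr m hm
        refine ⟨⁅g, h⁆, Subgroup.commutator_mem_commutator hg hh, ?_⟩
        rw [comm_HX S _ _ (bet_sq S r hr L1 ne1) (good_smul S _ (hr m) _) g h hg' hh', bet_append,
          mul_smul]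
    · intro i
      obtain ⟨e1, L1, h1, b1, n1, hX1⟩ := ihX i
      obtain ⟨e2, L2, h2, b2, n2, hX2⟩ := ihX (e1 + 1)
      refine ⟨e2 + 1, (e1, e2) :: (L1 ++ L2), by omega, ?_, ?_, by simp, ?_⟩
      · intro n hn
        rw [idx_cons, idx_append, List.mem_cons, List.mem_cons, List.mem_append] at hn
        rcases hn with hn | hn | hn | hn
        · simp only at hn
          omega
        · simp only at hn
          omega
        · have := b1 n hn
          omega
        · have := b2 n hn
          omega
      · rw [idx_cons, idx_append, List.nodup_cons, List.nodup_cons]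
        refine ⟨?_, ?_, ?_⟩
        · intro hn
          rw [List.mem_cons, List.mem_append] at hn
          rcases hn with hn | hn | hn
          · simp only at hn
            omega
          · have := b1 _ hn
            simp only at this
            omega
          · have := b2 _ hn
            simp only at this
            omega
        · intro hn
          rw [List.mem_append] at hn
          rcases hn with hn | hn
          · have := b1 _ hn
            simp only at this
            omega
          · have := b2 _ hn
            simp only at this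
            omega
        · refine List.Nodup.append n1 n2 ?_
          intro n hn1 hn2
          have := b1 n hn1
          have := b2 n hn2
          omega
      · intro B M _ _ _ w S r hr
        obtain ⟨g, hg, hg'⟩ := hX1 B M w S r hr e1 (le_refl _)
        obtain ⟨h, hh, hh'⟩ := hX2 B M w S r hr e2 (le_refl _)
        refine ⟨⁅g, h⁆, Subgroup.commutator_mem_commutator hg hh, ?_⟩
        rw [comm_XX S _ _ (good_smul S _ (hr _) _) (good_smul S _ (hr _) _) g h hg' hh', bet_cons,
          bet_append, S.smull, S.smulr]
        congr 2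
        ring

/-- for every `k` there is a list of pairs of different indices such that in all systems the `k`-th derived group contains
`1 + H c`, `c` the product of the values of the form on the list -/
theorem der_list (k : ℕ) :
    ∃ L : List (ℕ × ℕ), (idx L).Nodup ∧
      ∀ (B M : Type) [CommRing B] [AddCommGroup M] [Module B M] (w : M → M → B) (S : Sys B M w)
        (r : ℕ → M), (∀ i, Good w (r i)) → ∃ g ∈ dser (grp S (Set.range r)) k,
        (g : Module.End B (M × B)) = 1 + opH B M (bet w r L) := by
  obtain ⟨e, L, _, _, h3, _, h5⟩ := (der_XH k).2 0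
  exact ⟨L, h3, h5⟩

/-- the derived series of the group does not reach the trivial group in `k` steps if the product does not vanish -/
theorem der_ne (k : ℕ) :
    ∃ L : List (ℕ × ℕ), (idx L).Nodup ∧
      ∀ (B M : Type) [CommRing B] [AddCommGroup M] [Module B M] (w : M → M → B) (S : Sys B M w)
        (r : ℕ → M), (∀ i, Good w (r i)) → (∃ m : M, bet w r L • m ≠ 0) →
        derivedSeries (grp S (Set.range r)) k ≠ ⊥ := by
  obtain ⟨L, h1, h2⟩ := der_list k
  refine ⟨L, h1, ?_⟩
  intro B M _ _ _ w S r hr hm hbot
  obtain ⟨m, hm⟩ := hm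
  obtain ⟨g, hg, hg'⟩ := h2 B M w S r hr
  rw [dser_eq, hbot, Subgroup.map_bot, Subgroup.mem_bot] at hg
  rw [hg, Units.val_one] at hg'
  have h3 : opH B M (bet w r L) = 0 := by
    have := congrArg (fun z => z - 1) hg'
    simp only [sub_self, add_sub_cancel_left] at this
    exact this.symm
  have h4 := congrArg (fun z : Module.End B (M × B) => (z (m, 0)).1) h3
  simp only [opH_apply] at h4
  exact hm h4

end Pool.Agent.MP_f7c5a7_al.E4
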