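import Pool.Agent.Lib.MP_f7c5a7_al.E4.DR

/-!
# MP_f7c5a7_al: adjoining a generator, products of values of the form do not vanish
-/

set_option autoImplicit false

namespace Pool.Agent.MP_f7c5a7_al.E4

open TrivSqZeroExt

/-- the extension `C + C r + C s` -/
abbrev Ex (C : Type) [CommRing C] : Type := TrivSqZeroExt C (C × C)

section

variable {C : Type} [CommRing C]

/-- the derivation of the extension: `r` goes to `s` -/
def E1 (D1 : C →+ C) : Ex C →+ Ex C where
  toFun x := inl (D1 x.fst) + inr (D1 x.snd.1, x.snd.1 + D1 x.snd.2)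
  map_zero' := by
    apply TrivSqZeroExt.ext
    · simp
    · simp
  map_add' x y := by
    apply TrivSqZeroExt.ext
    · simp
    · apply Prod.ext
      · simp
      · simp
        ring

/-- the second operator of the extension -/
def E2 (D1 D2 : C →+ C) : Ex C →+ Ex C where
  toFun x := inl (D2 x.fst) + inr (D2 x.snd.1, D1 x.snd.1 + D2 x.snd.2)
  map_zero' := by
    apply TrivSqZeroExt.ext
    · simp
    · simp
  map_add' x y := by
    apply TrivSqZeroExt.ext
    · simp
    · apply Prod.ext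
      · simp
      · simp
        ring

theorem E1_fst (D1 : C →+ C) (x : Ex C) : (E1 D1 x).fst = D1 x.fst := by simp [E1]

theorem E1_snd (D1 : C →+ C) (x : Ex C) : (E1 D1 x).snd = (D1 x.snd.1, x.snd.1 + D1 x.snd.2) := by
  simp [E1]

theorem E2_fst (D1 D2 : C →+ C) (x : Ex C) : (E2 D1 D2 x).fst = D2 x.fst := by simp [E2]

theorem E2_snd (D1 D2 : C →+ C) (x : Ex C) :
    (E2 D1 D2 x).snd = (D2 x.snd.1, D1 x.snd.1 + D2 x.snd.2) := by
  simp [E2]

theorem ex_ext (x y : Ex C) (h0 : x.fst = y.fst) (h1 : x.snd.1 = y.snd.1) (h2 : x.snd.2 = y.snd.2) :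
    x = y := TrivSqZeroExt.ext h0 (Prod.ext h1 h2)

theorem mul1 (x y : Ex C) : (x * y).snd.1 = x.fst * y.snd.1 + y.fst * x.snd.1 := by
  simp [TrivSqZeroExt.snd_mul]

theorem mul2 (x y : Ex C) : (x * y).snd.2 = x.fst * y.snd.2 + y.fst * x.snd.2 := by
  simp [TrivSqZeroExt.snd_mul]

theorem DR_ex {D1 D2 : C →+ C} (h : DR C D1 D2) : DR (Ex C) (E1 D1) (E2 D1 D2) where
  two := by
    have : (2 : Ex C) = inl (2 : C) := rfl
    rw [this, h.two, inl_zero]
  l1 x y := by
    apply ex_ext
    · simp only [E1_fst, fst_mul, fst_add, h.l1]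
    · simp only [E1_snd, E1_fst, mul1, snd_add, Prod.fst_add, map_add, h.l1]
      ring
    · simp only [E1_snd, E1_fst, mul1, mul2, snd_add, Prod.snd_add, map_add, h.l1]
      ring
  l2 x y := by
    apply ex_ext
    · simp only [E1_fst, E2_fst, fst_mul, fst_add, h.l2]
    · simp only [E1_snd, E1_fst, E2_fst, E2_snd, mul1, snd_add, Prod.fst_add, map_add, h.l2]
      ring
    · simp only [E1_snd, E1_fst, E2_fst, E2_snd, mul1, mul2, snd_add, Prod.snd_add, map_add, h.l1, h.l2]
      ring
  s1 x := by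
    apply ex_ext
    · simp only [E1_fst, h.s1, fst_zero]
    · simp only [E1_snd, h.s1, snd_zero, Prod.fst_zero]
    · simp only [E1_snd, map_add, h.s1, snd_zero, Prod.snd_zero]
      linear_combination (D1 x.snd.1) * h.two
  s2 x := by
    apply ex_ext
    · simp only [E2_fst, h.s2, fst_zero]
    · simp only [E2_snd, h.s2, snd_zero, Prod.fst_zero]
    · simp only [E2_snd, map_add, h.s2, h.c12, snd_zero, Prod.snd_zero]
      linear_combination (D2 (D1 x.snd.1)) * h.two
  c12 x := by
    apply ex_ext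
    · simp only [E1_fst, E2_fst, h.c12]
    · simp only [E1_snd, E2_snd, h.c12]
    · simp only [E1_snd, E2_snd, map_add, h.c12, h.s1]
      ring


/-- one generator -/
def gn (C : Type) [CommRing C] : Ex C := inr (1, 0)

theorem gn_sq : gn C * gn C = 0 := inr_mul_inr _ _ _

theorem E1_gn {D1 D2 : C →+ C} (h : DR C D1 D2) : E1 D1 (gn C) = inr (0, 1) := by
  apply ex_ext
  · rw [E1_fst]; simp [gn]
  · rw [E1_snd]; simp [gn, h.one1]
  · rw [E1_snd]; simp [gn]

theorem E2_gn {D1 D2 : C →+ C} (h : DR C D1 D2) : E2 D1 D2 (gn C) = 0 := by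
  apply ex_ext
  · rw [E2_fst]; simp [gn]
  · rw [E2_snd]; simp [gn, h.one2]
  · rw [E2_snd]; simp [gn, h.one1]

theorem gn_E1 {D1 D2 : C →+ C} (h : DR C D1 D2) : gn C * E1 D1 (gn C) = 0 := by
  rw [E1_gn h]
  exact inr_mul_inr _ _ _

theorem E1_inl (D1 : C →+ C) (c : C) : E1 D1 (inl c) = inl (D1 c) := by
  apply ex_ext
  · rw [E1_fst]; simp
  · rw [E1_snd]; simp
  · rw [E1_snd]; simp

theorem E2_inl (D1 D2 : C →+ C) (c : C) : E2 D1 D2 (inl c) = inl (D2 c) := by
  apply ex_ext
  · rw [E2_fst]; simp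
  · rw [E2_snd]; simp
  · rw [E2_snd]; simp

/-- the conditions on a generator -/
def Gd (D1 D2 : C →+ C) (x : C) : Prop := D2 x = 0 ∧ x * x = 0 ∧ x * D1 x = 0

theorem Gd_gn {D1 D2 : C →+ C} (h : DR C D1 D2) : Gd (E1 D1) (E2 D1 D2) (gn C) :=
  ⟨E2_gn h, gn_sq, gn_E1 h⟩

theorem Gd_inl {D1 D2 : C →+ C} (x : C) (hx : Gd D1 D2 x) : Gd (E1 D1) (E2 D1 D2) (inl x) := by
  obtain ⟨h1, h2, h3⟩ := hx
  refine ⟨?_, ?_, ?_⟩
  · rw [E2_inl, h1, inl_zero]
  · rw [← inl_mul, h2, inl_zero]
  · rw [E1_inl, ← inl_mul, h3, inl_zero]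

/-- two more generators: the product with the value of the form does not become trivial -/
theorem step_ne {D1 D2 : C →+ C} (h : DR C D1 D2) (z : C) (hz : ∀ f, D2 f ≠ z) (F : Ex (Ex C)) :
    E2 (E1 D1) (E2 D1 D2) F ≠
      E1 (E1 D1) (inl (gn C) * gn (Ex C)) * inl (inl z) := by
  intro hF
  have e0 : (inl (gn C) * gn (Ex C) : Ex (Ex C)) = inr (gn C, 0) := by
    apply ex_ext
    · simp [gn]
    · rw [mul1]; simp [gn]
    · rw [mul2]; simp [gn]
  rw [e0] at hF
  have r1 : (E1 (E1 D1) (inr (gn C, 0) : Ex (Ex C)) * inl (inl z)).snd.1 = inr (0, z) := by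
    rw [mul1, E1_fst, E1_snd]
    simp only [fst_inr, snd_inr, fst_inl, snd_inl, Prod.fst_zero, mul_zero, zero_add, E1_gn h]
    apply ex_ext
    · simp
    · rw [mul1]; simp
    · rw [mul2]; simp
  have r2 : (E1 (E1 D1) (inr (gn C, 0) : Ex (Ex C)) * inl (inl z)).snd.2 = inr (z, 0) := by
    rw [mul2, E1_fst, E1_snd]
    simp only [fst_inr, snd_inr, fst_inl, snd_inl, Prod.snd_zero, mul_zero, zero_add, map_zero, add_zero]
    apply ex_ext
    · simp [gn]
    · rw [mul1]; simp [gn]
    · rw [mul2]; simp [gn]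
  rw [← hF, E2_snd] at r1 r2
  have a1 := congrArg (fun x : Ex C => x.snd.2) r1
  have a2 := congrArg (fun x : Ex C => x.snd.2) r2
  simp only [E2_snd, E1_snd, snd_add, Prod.snd_add, snd_inr] at a1 a2
  have a3 := congrArg D1 a2
  simp only [map_add, h.s1, map_zero] at a3
  refine hz (F.snd.1.snd.2 + D1 F.snd.2.snd.2) ?_
  rw [map_add, ← h.c12]
  linear_combination a1 - a3 + (D1 (D2 F.snd.2.snd.2)) * h.two

end

/-- for every list of pairs of different indices there is a finite ring with elements for which the product of the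
values of the form does not vanish -/
theorem exists_ring (L : List (ℕ × ℕ)) (hL : (idx L).Nodup) :
    ∃ (C : Type) (_ : CommRing C) (_ : Finite C) (D1 D2 : C →+ C) (_ : DR C D1 D2) (r : ℕ → C) (m : C),
      (∀ i, Gd D1 D2 (r i)) ∧ D2 m = 0 ∧
      ∀ f, D2 f ≠ (L.map (fun p => D1 (r p.1 * r p.2))).prod * m := by
  induction L with
  | nil =>
    refine ⟨ZMod 2, inferInstance, inferInstance, 0, 0, ?_, 0, 1, ?_, rfl, ?_⟩
    · refine ⟨by decide, ?_, ?_, ?_, ?_, ?_⟩
      · intro f g; simp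
      · intro f g; simp
      · intro f; simp
      · intro f; simp
      · intro f; simp
    · intro i
      refine ⟨rfl, ?_, ?_⟩
      · simp
      · simp
    · intro f
      simp
  | cons p L ih =>
    rw [idx_cons, List.nodup_cons, List.nodup_cons, List.mem_cons, not_or] at hL
    obtain ⟨⟨h12, h1L⟩, h2L, hL'⟩ := hL
    obtain ⟨C, i1, i2, D1, D2, h, r, m, hr, hm, hne⟩ := ih hL'
    have h' := DR_ex h
    have h'' := DR_ex h'
    have fin' : Finite (Ex C) := inferInstanceAs (Finite (C × (C × C)))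
    have fin'' : Finite (Ex (Ex C)) := inferInstanceAs (Finite (Ex C × (Ex C × Ex C)))
    refine ⟨Ex (Ex C), inferInstance, fin'', E1 (E1 D1), E2 (E1 D1) (E2 D1 D2), h'',
      fun n => if n = p.1 then inl (gn C) else if n = p.2 then gn (Ex C) else inl (inl (r n)),
      inl (inl m), ?_, ?_, ?_⟩
    · intro i
      by_cases hi1 : i = p.1
      · simp only [hi1, if_true]
        exact Gd_inl _ (Gd_gn h)
      · by_cases hi2 : i = p.2
        · simp only [hi2, if_true]
          rw [if_neg (fun e => h12 e.symm)]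
          exact Gd_gn h'
        · simp only [hi1, hi2, if_false]
          exact Gd_inl _ (Gd_inl _ (hr i))
    · rw [E2_inl, E2_inl, hm, inl_zero, inl_zero]
    · intro F
      have e1 : (List.map (fun q : ℕ × ℕ => E1 (E1 D1)
          ((if q.1 = p.1 then inl (gn C) else if q.1 = p.2 then gn (Ex C) else inl (inl (r q.1))) *
           (if q.2 = p.1 then inl (gn C) else if q.2 = p.2 then gn (Ex C) else inl (inl (r q.2))))) L) =
          List.map (fun q : ℕ × ℕ => (inl (inl (D1 (r q.1 * r q.2))) : Ex (Ex C))) L := by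
        apply List.map_congr_left
        intro q hq
        have m1 : q.1 ∈ idx L := by
          unfold idx
          rw [List.mem_flatMap]
          exact ⟨q, hq, by simp⟩
        have m2 : q.2 ∈ idx L := by
          unfold idx
          rw [List.mem_flatMap]
          exact ⟨q, hq, by simp⟩
        have n1 : q.1 ≠ p.1 := fun e => h1L (e ▸ m1)
        have n2 : q.1 ≠ p.2 := fun e => h2L (e ▸ m1)
        have n3 : q.2 ≠ p.1 := fun e => h1L (e ▸ m2)
        have n4 : q.2 ≠ p.2 := fun e => h2L (e ▸ m2)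
        rw [if_neg n1, if_neg n2, if_neg n3, if_neg n4, ← inl_mul, ← inl_mul, E1_inl, E1_inl]
      rw [List.map_cons, List.prod_cons, e1]
      simp only [if_true]
      rw [if_neg (fun e => h12 e.symm)]
      have e2 : (List.map (fun q : ℕ × ℕ => (inl (inl (D1 (r q.1 * r q.2))) : Ex (Ex C))) L).prod =
          inl (inl ((L.map (fun q => D1 (r q.1 * r q.2))).prod)) := by
        have e3 := map_list_prod ((inlHom (Ex C) (Ex C × Ex C)).comp (inlHom C (C × C)))
          (L.map (fun q => D1 (r q.1 * r q.2)))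
        rw [List.map_map] at e3
        exact e3.symm
      rw [e2, mul_assoc, ← inl_mul, ← inl_mul]
      exact step_ne h _ hne F

end Pool.Agent.MP_f7c5a7_al.E4
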