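import Pool.Agent.Lib.MP_f7c5a7_al.E4.Cube

/-!
# MP_f7c5a7_al: the group, its commutators and its derived series
-/

set_option autoImplicit false

namespace Pool.Agent.MP_f7c5a7_al.E4

open scoped commutatorElement

variable {B M : Type} [CommRing B] [AddCommGroup M] [Module B M] {w : M → M → B}

/-- the group generated by the maps `1 + X x`, `x ∈ Y` -/
def grp (S : Sys B M w) (Y : Set M) : Subgroup (Module.End B (M × B))ˣ :=
  Subgroup.closure {g | ∃ x ∈ Y, (g : Module.End B (M × B)) = 1 + opX S x}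

theorem Sys.ee (S : Sys B M w) (f : Module.End B (M × B)) : f + f = 0 := by
  rw [← two_smul B f, S.two, zero_smul]

theorem opX_sq (S : Sys B M w) (x : M) (hx : Good w x) : opX S x * opX S x = 0 := by
  apply LinearMap.ext
  rintro ⟨u, b⟩
  show opX S x (opX S x (u, b)) = 0
  rw [opX_apply, opX_apply, hx u, S.smull, S.alt, mul_zero]
  rfl

theorem opX_mid (S : Sys B M w) (x y : M) (hx : Good w x) : opX S x * opX S y * opX S x = 0 := by
  apply LinearMap.ext
  rintro ⟨u, b⟩
  show opX S x (opX S y (opX S x (u, b))) = 0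
  rw [opX_apply, opX_apply, opX_apply, S.smull, S.smull, mul_smul, S.symm x y, hx y, smul_zero]
  have := congrArg (fun z => w y z) (hx u)
  simp only [S.smulr, S.zeror] at this
  rw [this]
  rfl

theorem opX_anti (S : Sys B M w) (x y : M) :
    opX S x * opX S y + opX S y * opX S x = opH B M (w x y) := by
  apply LinearMap.ext
  rintro ⟨u, b⟩
  show opX S x (opX S y (u, b)) + opX S y (opX S x (u, b)) = _
  rw [opX_apply, opX_apply, opX_apply, opX_apply, opH_apply, S.smull, S.smull, S.symm y x]
  apply Prod.ext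
  · show w u y • x + w u x • y = w x y • u
    have := S.J u x y
    rw [S.symm y u] at this
    linear_combination (norm := module) this - w x y • S.t2 u
  · show b * w x y + b * w x y = 0
    exact S.aa _

theorem opHX (S : Sys B M w) (c : B) (x : M) :
    opH B M c * opX S x + opX S x * opH B M c = opX S (c • x) := by
  apply LinearMap.ext
  rintro ⟨u, b⟩
  show opH B M c (opX S x (u, b)) + opX S x (opH B M c (u, b)) = _
  rw [opX_apply, opH_apply, opH_apply, opX_apply, opX_apply, S.smulr]
  apply Prod.ext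
  · show c • b • x + (0 : B) • x = b • c • x
    rw [zero_smul, add_zero, smul_comm]
  · show (0 : B) + w (c • u) x = c * w u x
    rw [S.smull, zero_add]

theorem opXHX (S : Sys B M w) (c : B) (x : M) : opX S x * opH B M c * opX S x = 0 := by
  apply LinearMap.ext
  rintro ⟨u, b⟩
  show opX S x (opH B M c (opX S x (u, b))) = 0
  rw [opX_apply, opH_apply, opX_apply, S.smull, S.smull, S.alt, mul_zero, mul_zero, zero_smul]
  rfl

theorem opHXH (S : Sys B M w) (c : B) (x : M) : opH B M c * opX S x * opH B M c = 0 := by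
  apply LinearMap.ext
  rintro ⟨u, b⟩
  show opH B M c (opX S x (opH B M c (u, b))) = 0
  rw [opH_apply, opX_apply, opH_apply, zero_smul, smul_zero]
  rfl

theorem opH_sq (c : B) (hc : c * c = 0) : opH B M c * opH B M c = 0 := by
  apply LinearMap.ext
  rintro ⟨u, b⟩
  show opH B M c (opH B M c (u, b)) = 0
  rw [opH_apply, opH_apply, ← mul_smul, hc, zero_smul]
  rfl

/-- the commutator of two involutions `1 + p`, `1 + q` with `p q p = q p q = 0` -/
theorem comm_inv {R : Type} [Ring R] (h2 : ∀ z : R, z + z = 0) (g h : Rˣ) (p q : R) (hg : (g : R) = 1 + p)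
    (hh : (h : R) = 1 + q) (pp : p * p = 0) (qq : q * q = 0) (pqp : p * q * p = 0)
    (qpq : q * p * q = 0) : ((⁅g, h⁆ : Rˣ) : R) = 1 + (p * q + q * p) := by
  have ig : g⁻¹ = g := by
    apply inv_eq_of_mul_eq_one_left
    apply Units.ext
    rw [Units.val_mul, hg, Units.val_one]
    have : (1 + p) * (1 + p) = 1 + (p + p) + p * p := by noncomm_ring
    rw [this, h2, pp, add_zero, add_zero]
  have ih : h⁻¹ = h := by
    apply inv_eq_of_mul_eq_one_left
    apply Units.ext
    rw [Units.val_mul, hh, Units.val_one]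
    have : (1 + q) * (1 + q) = 1 + (q + q) + q * q := by noncomm_ring
    rw [this, h2, qq, add_zero, add_zero]
  rw [commutatorElement_def, ig, ih, Units.val_mul, Units.val_mul, Units.val_mul, hg, hh]
  have e1 : (1 + p) * (1 + q) * (1 + p) * (1 + q) =
      1 + (p * q + q * p) + ((p + p) + (q + q) + (p * q + p * q) + p * p + q * q + p * q * p + q * p * q
        + (p * p) * q + p * (q * q) + (p * q * p) * q) := by noncomm_ring
  rw [e1, pp, qq, pqp, qpq, h2 p, h2 q, h2 (p * q)]
  simp

/-- a unit -/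
def unitOf {R : Type} [Ring R] (h2 : ∀ z : R, z + z = 0) (p : R) (pp : p * p = 0) : Rˣ where
  val := 1 + p
  inv := 1 + p
  val_inv := by
    have : (1 + p) * (1 + p) = 1 + (p + p) + p * p := by noncomm_ring
    rw [this, h2, pp, add_zero, add_zero]
  inv_val := by
    have : (1 + p) * (1 + p) = 1 + (p + p) + p * p := by noncomm_ring
    rw [this, h2, pp, add_zero, add_zero]

theorem grp_inv (S : Sys B M w) (Y : Set M) (hY : ∀ y ∈ Y, Good w y) (g : (Module.End B (M × B))ˣ)
    (hg : g ∈ grp S Y) : ∃ Φ t a μ, Inv S Y (g : Module.End B (M × B)) Φ t a μ := by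
  unfold grp at hg
  induction hg using Subgroup.closure_induction_left with
  | one => exact ⟨0, 0, 0, 0, inv_one S Y⟩
  | mul_left x hx y hy ih =>
    obtain ⟨Φ, t, a, μ, h⟩ := ih
    obtain ⟨z, hz, hxz⟩ := hx
    rw [Units.val_mul, hxz]
    exact ⟨_, _, _, _, inv_step S Y hY z hz _ Φ t a μ h⟩
  | inv_mul_cancel x hx y hy ih =>
    obtain ⟨Φ, t, a, μ, h⟩ := ih
    obtain ⟨z, hz, hxz⟩ := hx
    have ix : x⁻¹ = x := by
      apply inv_eq_of_mul_eq_one_left
      apply Units.ext
      rw [Units.val_mul, hxz, Units.val_one]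
      have : (1 + opX S z) * (1 + opX S z) = 1 + (opX S z + opX S z) + opX S z * opX S z := by noncomm_ring
      rw [this, S.ee, opX_sq S z (hY z hz), add_zero, add_zero]
    rw [ix, Units.val_mul, hxz]
    exact ⟨_, _, _, _, inv_step S Y hY z hz _ Φ t a μ h⟩

theorem grp_cube (S : Sys B M w) (Y : Set M) (hY : ∀ y ∈ Y, Good w y) (g : (Module.End B (M × B))ˣ)
    (hg : g ∈ grp S Y) : ((g : Module.End B (M × B)) - 1) ^ 3 = 0 := by
  obtain ⟨Φ, t, a, μ, h⟩ := grp_inv S Y hY g hg
  exact inv_cube S Y _ Φ t a μ h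

end Pool.Agent.MP_f7c5a7_al.E4
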