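import Mathlib

/-!
# MP_f7c5a7_al: computations with polynomials in two noncommuting variables over the field with two elements

`Tr` is the type of the polynomials, given as binary trees: `n c l r` is `c + a l + b r`.
-/

set_option autoImplicit false

namespace Pool.Agent.MP_f7c5a7_al.E4

/-- polynomials in two noncommuting variables with coefficients `0`, `1` -/
inductive Tr : Type
  | z : Tr
  | n : Bool → Tr → Tr → Tr

namespace Tr

/-- the sum -/
def add : Tr → Tr → Tr
  | .z, q => q
  | .n c l r, .z => .n c l r
  | .n c l r, .n c' l' r' => .n (xor c c') (add l l') (add r r')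

/-- the product -/
def mul : Tr → Tr → Tr
  | .z, _ => .z
  | .n c l r, q => add (bif c then q else .z) (.n false (mul l q) (mul r q))

/-- remove the words containing `aaa` or `bbb`; `i` letters `a` or `j` letters `b` just before -/
def pr : ℕ → ℕ → Tr → Tr
  | _, _, .z => .z
  | i, j, .n c l r => .n c (bif i.beq 2 then .z else pr (i + 1) 0 l) (bif j.beq 2 then .z else pr 0 (j + 1) r)

/-- is it zero? -/
def isz : Tr → Bool
  | .z => true
  | .n c l r => (!c) && (isz l && isz r)

/-- a word; `false` is `a`, `true` is `b` -/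
def wd : List Bool → Tr
  | [] => .n true .z .z
  | false :: t => .n false (wd t) .z
  | true :: t => .n false .z (wd t)

/-- the sum of a list of words -/
def ws : List (List Bool) → Tr
  | [] => .z
  | w :: t => add (wd w) (ws t)

variable {R : Type} [Ring R]

/-- the value -/
def ev (a b : R) : Tr → R
  | .z => 0
  | .n c l r => (bif c then 1 else 0) + a * ev a b l + b * ev a b r

theorem ev_z (a b : R) : ev a b .z = 0 := rfl

theorem ev_n (a b : R) (c : Bool) (l r : Tr) :
    ev a b (.n c l r) = (bif c then 1 else 0) + a * ev a b l + b * ev a b r := rfl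

theorem ev_add (h2 : ∀ x : R, x + x = 0) (a b : R) : ∀ p q : Tr, ev a b (add p q) = ev a b p + ev a b q
  | .z, q => by rw [add, ev_z, zero_add]
  | .n c l r, .z => by rw [add, ev_z, add_zero]
  | .n c l r, .n c' l' r' => by
    rw [add, ev_n, ev_n, ev_n, ev_add h2 a b l l', ev_add h2 a b r r']
    have e : (bif (xor c c') then (1 : R) else 0) = (bif c then 1 else 0) + (bif c' then 1 else 0) := by
      cases c <;> cases c' <;> simp [h2]
    rw [e]
    noncomm_ring

theorem ev_mul (h2 : ∀ x : R, x + x = 0) (a b : R) : ∀ p q : Tr, ev a b (mul p q) = ev a b p * ev a b q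
  | .z, q => by rw [mul, ev_z, zero_mul]
  | .n c l r, q => by
    rw [mul, ev_add h2, ev_n, ev_n, ev_mul h2 a b l q, ev_mul h2 a b r q]
    cases c
    · simp only [cond_false, ev_z]
      noncomm_ring
    · simp only [cond_true, cond_false]
      noncomm_ring

theorem ev_pr (a b : R) (ha : a * a * a = 0) (hb : b * b * b = 0) : ∀ (t : Tr) (k : ℕ), k ≤ 2 →
    a ^ k * ev a b (pr k 0 t) = a ^ k * ev a b t ∧ b ^ k * ev a b (pr 0 k t) = b ^ k * ev a b t
  | .z, k, hk => by
    cases k with
    | zero => exact ⟨rfl, rfl⟩
    | succ k => exact ⟨rfl, rfl⟩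
  | .n c l r, k, hk => by
    have a3 : a ^ 3 = 0 := by rw [pow_succ, pow_two, ha]
    have b3 : b ^ 3 = 0 := by rw [pow_succ, pow_two, hb]
    have l1 := (ev_pr a b ha hb l 1 (by omega)).1
    have r1 := (ev_pr a b ha hb r 1 (by omega)).2
    rw [pow_one] at l1 r1
    constructor
    · rw [pr, ev_n, ev_n]
      have e1 : a ^ k * (a * ev a b (bif k.beq 2 then .z else pr (k + 1) 0 l)) = a ^ k * (a * ev a b l) := by
        by_cases h : k = 2
        · subst h
          rw [← mul_assoc, ← mul_assoc, ← pow_succ, a3, zero_mul, zero_mul]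
        · have h' : k.beq 2 = false := by
            interval_cases k
            · rfl
            · rfl
            · exact absurd rfl h
          rw [h', cond_false, ← mul_assoc, ← mul_assoc, ← pow_succ]
          exact (ev_pr a b ha hb l (k + 1) (by omega)).1
      have e2 : b * ev a b (bif Nat.beq 0 2 then .z else pr 0 (0 + 1) r) = b * ev a b r := r1
      rw [mul_add, mul_add, e1, e2, ← mul_add, ← mul_add]
    · rw [pr, ev_n, ev_n]
      have e1 : b ^ k * (b * ev a b (bif k.beq 2 then .z else pr 0 (k + 1) r)) = b ^ k * (b * ev a b r) := by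
        by_cases h : k = 2
        · subst h
          rw [← mul_assoc, ← mul_assoc, ← pow_succ, b3, zero_mul, zero_mul]
        · have h' : k.beq 2 = false := by
            interval_cases k
            · rfl
            · rfl
            · exact absurd rfl h
          rw [h', cond_false, ← mul_assoc, ← mul_assoc, ← pow_succ]
          exact (ev_pr a b ha hb r (k + 1) (by omega)).2
      have e2 : a * ev a b (bif Nat.beq 0 2 then .z else pr (0 + 1) 0 l) = a * ev a b l := l1
      rw [mul_add, mul_add, e1, e2, ← mul_add, ← mul_add]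

theorem ev_isz (a b : R) : ∀ t : Tr, isz t = true → ev a b t = 0
  | .z, _ => rfl
  | .n c l r, h => by
    rw [isz, Bool.and_eq_true, Bool.and_eq_true, Bool.not_eq_true'] at h
    rw [ev_n, ev_isz a b l h.2.1, ev_isz a b r h.2.2, h.1]
    simp

/-- the certificate: a list of `(u, i, v)`, the sum of the `u * rel i * v` -/
def cs (rel : ℕ → Tr) : List (List Bool × ℕ × List Bool) → Tr
  | [] => .z
  | (u, i, v) :: t => add (pr 0 0 (mul (wd u) (mul (rel i) (wd v)))) (cs rel t)

theorem ev_cs (h2 : ∀ x : R, x + x = 0) (a b : R) (ha : a * a * a = 0) (hb : b * b * b = 0)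
    (rel : ℕ → Tr) (hrel : ∀ i, ev a b (rel i) = 0) :
    ∀ L : List (List Bool × ℕ × List Bool), ev a b (cs rel L) = 0
  | [] => rfl
  | (u, i, v) :: t => by
    have e := (ev_pr a b ha hb (mul (wd u) (mul (rel i) (wd v))) 0 (by omega)).1
    rw [pow_zero, one_mul, one_mul] at e
    rw [cs, ev_add h2, e, ev_mul h2, ev_mul h2, hrel, ev_cs h2 a b ha hb rel hrel t]
    simp

/-- the certificate is correct -/
theorem check (h2 : ∀ x : R, x + x = 0) (a b : R) (ha : a * a * a = 0) (hb : b * b * b = 0)
    (rel : ℕ → Tr) (hrel : ∀ i, ev a b (rel i) = 0) (L : List (List Bool × ℕ × List Bool)) (t : Tr)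
    (hc : isz (add t (cs rel L)) = true) : ev a b t = 0 := by
  have e := ev_isz a b _ hc
  rw [ev_add h2, ev_cs h2 a b ha hb rel hrel L, add_zero] at e
  exact e

end Tr

end Pool.Agent.MP_f7c5a7_al.E4
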