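import Pool.Agent.Lib.MP_f7c5a7_al.E4.Cert

/-!
# MP_f7c5a7_al: the relations in a ring of characteristic 2, for two elements of a group with `(g - 1) ^ 3 = 0`
-/

set_option autoImplicit false

namespace Pool.Agent.MP_f7c5a7_al.E4

namespace Tr

variable {R : Type} [Ring R]

/-- the value of a word -/
def wv (a b : R) : List Bool → R
  | [] => 1
  | c :: t => (bif c then b else a) * wv a b t

theorem ev_wd (a b : R) : ∀ w : List Bool, ev a b (wd w) = wv a b w
  | [] => by simp [wd, ev, wv]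
  | false :: t => by
    rw [wd, ev_n, ev_z, ev_wd a b t, wv]
    simp
  | true :: t => by
    rw [wd, ev_n, ev_z, ev_wd a b t, wv]
    simp

/-- the value of a sum of words -/
def sv (a b : R) (L : List (List Bool)) : R := (L.map (wv a b)).sum

theorem ev_ws (h2 : ∀ x : R, x + x = 0) (a b : R) : ∀ L : List (List Bool), ev a b (ws L) = sv a b L
  | [] => rfl
  | w :: t => by
    rw [ws, ev_add h2, ev_wd, ev_ws h2 a b t]
    unfold sv
    rw [List.map_cons, List.sum_cons]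

theorem ev_cube (h2 : ∀ x : R, x + x = 0) (a b : R) (ha : a * a * a = 0) (hb : b * b * b = 0) (g : Tr) :
    ev a b (cube g) = (ev a b g + 1) ^ 3 := by
  have e := (ev_pr a b ha hb (mul (add g one) (mul (add g one) (add g one))) 0 (by omega)).1
  rw [pow_zero, one_mul, one_mul] at e
  have e1 : ev a b one = 1 := by simp [one, ev]
  rw [cube, e, ev_mul h2, ev_mul h2, ev_add h2, e1, pow_succ, pow_two, mul_assoc]

theorem ev_tx (a b : R) : ev a b tx = 1 + a := by simp [tx, ev]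

theorem ev_ty (a b : R) : ev a b ty = 1 + b := by simp [ty, ev]

theorem ev_tY (a b : R) : ev a b tY = 1 + b + b * b := by
  simp [tY, ev]
  noncomm_ring

theorem neg2 (h2 : ∀ x : R, x + x = 0) (x : R) : -x = x := by
  rw [neg_eq_iff_add_eq_zero, h2]

theorem sub1 (h2 : ∀ x : R, x + x = 0) (x : R) : x - 1 = x + 1 := by
  rw [sub_eq_add_neg, neg2 h2]

/-- the hypothesis: a subgroup of the units in which all `(g - 1) ^ 3` vanish -/
def Cub (G : Subgroup Rˣ) : Prop := (∀ x : R, x + x = 0) ∧ ∀ g ∈ G, ((g : R) - 1) ^ 3 = 0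

variable {G : Subgroup Rˣ}

theorem cub3 (hG : Cub G) (x : Rˣ) (hx : x ∈ G) : ((x : R) + 1) * (x + 1) * (x + 1) = 0 := by
  have := hG.2 x hx
  rw [sub1 hG.1, pow_succ, pow_two] at this
  exact this

theorem val_inv (hG : Cub G) (x : Rˣ) (hx : x ∈ G) :
    ((x⁻¹ : Rˣ) : R) = 1 + ((x : R) + 1) + (x + 1) * (x + 1) := by
  have h3 := cub3 hG x hx
  set a := (x : R) + 1 with ha
  have hxa : (x : R) = 1 + a := by
    rw [ha, add_comm, add_assoc, hG.1, add_zero]
  have e1 : (x : R) * (1 + a + a * a) = 1 := by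
    rw [hxa]
    have : (1 + a) * (1 + a + a * a) = 1 + (a + a) + (a * a + a * a) + a * a * a := by noncomm_ring
    rw [this, h3, hG.1, hG.1, add_zero, add_zero, add_zero]
  exact x.inv_eq_of_mul_eq_one_right e1

theorem rel0 (hG : Cub G) (x y : Rˣ) (hx : x ∈ G) (hy : y ∈ G) :
    ∀ i, ev ((x : R) + 1) ((y : R) + 1) (relN 4 i) = 0 := by
  have h2 := hG.1
  have ha := cub3 hG x hx
  have hb := cub3 hG y hy
  have hxa : 1 + ((x : R) + 1) = x := by rw [add_comm, add_assoc, h2, add_zero]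
  have hyb : 1 + ((y : R) + 1) = y := by rw [add_comm, add_assoc, h2, add_zero]
  have hY := val_inv hG y hy
  intro i
  match i with
  | 0 =>
    show ev _ _ (cube (mul tx ty)) = 0
    rw [ev_cube h2 _ _ ha hb, ev_mul h2, ev_tx, ev_ty, hxa, hyb, ← Units.val_mul, ← sub1 h2]
    exact hG.2 _ (mul_mem hx hy)
  | 1 =>
    show ev _ _ (cube (mul tx tY)) = 0
    rw [ev_cube h2 _ _ ha hb, ev_mul h2, ev_tx, ev_tY, hxa, ← hY, ← Units.val_mul, ← sub1 h2]
    exact hG.2 _ (mul_mem hx (inv_mem hy))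
  | 2 =>
    show ev _ _ (cube (mul tx (mul tx ty))) = 0
    rw [ev_cube h2 _ _ ha hb, ev_mul h2, ev_mul h2, ev_tx, ev_ty, hxa, hyb, ← Units.val_mul, ← Units.val_mul,
      ← sub1 h2]
    exact hG.2 _ (mul_mem hx (mul_mem hx hy))
  | 3 =>
    show ev _ _ (cube (mul tx (mul ty ty))) = 0
    rw [ev_cube h2 _ _ ha hb, ev_mul h2, ev_mul h2, ev_tx, ev_ty, hxa, hyb, ← Units.val_mul, ← Units.val_mul,
      ← sub1 h2]
    exact hG.2 _ (mul_mem hx (mul_mem hy hy))
  | k + 4 => rfl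

theorem T1 (hG : Cub G) (x y : Rˣ) (hx : x ∈ G) (hy : y ∈ G) :
    ev ((x : R) + 1) ((y : R) + 1) tT1 = 0 :=
  check hG.1 _ _ (cub3 hG x hx) (cub3 hG y hy) (relN 4) (rel0 hG x y hx hy) cT1 tT1 ok_T1

/-- exchange the two variables -/
theorem wv_swap (a b : R) : ∀ w : List Bool, wv b a w = wv a b (w.map not)
  | [] => rfl
  | c :: t => by
    rw [List.map_cons, wv, wv, wv_swap a b t]
    cases c <;> rfl

theorem sv_swap (a b : R) (L : List (List Bool)) : sv b a L = sv a b (L.map (List.map not)) := by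
  unfold sv
  rw [List.map_map]
  congr 1
  apply List.map_congr_left
  intro w _
  exact wv_swap a b w

theorem rel1 (hG : Cub G) (x y : Rˣ) (hx : x ∈ G) (hy : y ∈ G) :
    ∀ i, ev ((x : R) + 1) ((y : R) + 1) (relN 6 i) = 0 := by
  have h2 := hG.1
  have h0 := rel0 hG x y hx hy
  intro i
  match i with
  | 0 => exact h0 0
  | 1 => exact h0 1
  | 2 => exact h0 2
  | 3 => exact h0 3
  | 4 => exact T1 hG x y hx hy
  | 5 =>
    have := T1 hG y x hy hx
    unfold tT1 at this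
    rw [ev_ws h2, sv_swap] at this
    show ev _ _ (ws _) = 0
    rw [ev_ws h2]
    exact this
  | k + 6 => rfl

theorem T2 (hG : Cub G) (x y : Rˣ) (hx : x ∈ G) (hy : y ∈ G) :
    ev ((x : R) + 1) ((y : R) + 1) tT2 = 0 :=
  check hG.1 _ _ (cub3 hG x hx) (cub3 hG y hy) (relN 6) (rel1 hG x y hx hy) cT2 tT2 ok_T2

theorem rel2 (hG : Cub G) (x y : Rˣ) (hx : x ∈ G) (hy : y ∈ G) :
    ∀ i, ev ((x : R) + 1) ((y : R) + 1) (relN 8 i) = 0 := by
  have h2 := hG.1
  have h0 := rel1 hG x y hx hy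
  intro i
  match i with
  | 0 => exact h0 0
  | 1 => exact h0 1
  | 2 => exact h0 2
  | 3 => exact h0 3
  | 4 => exact h0 4
  | 5 => exact h0 5
  | 6 => exact T2 hG x y hx hy
  | 7 =>
    have := T2 hG y x hy hx
    unfold tT2 at this
    rw [ev_ws h2, sv_swap] at this
    show ev _ _ (ws _) = 0
    rw [ev_ws h2]
    exact this
  | k + 8 => rfl

theorem T3 (hG : Cub G) (x y : Rˣ) (hx : x ∈ G) (hy : y ∈ G) :
    ev ((x : R) + 1) ((y : R) + 1) tT3 = 0 :=
  check hG.1 _ _ (cub3 hG x hx) (cub3 hG y hy) (relN 8) (rel2 hG x y hx hy) cT3 tT3 ok_T3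

theorem T4 (hG : Cub G) (x y : Rˣ) (hx : x ∈ G) (hy : y ∈ G) :
    ev ((x : R) + 1) ((y : R) + 1) tT4 = 0 :=
  check hG.1 _ _ (cub3 hG x hx) (cub3 hG y hy) (relN 8) (rel2 hG x y hx hy) cT4 tT4 ok_T4

/-- the relations, for `a = x - 1`, `b = y - 1` -/
structure Rels (a b : R) : Prop where
  h2 : ∀ x : R, x + x = 0
  aaa : a * a * a = 0
  bbb : b * b * b = 0
  abaa : a * b * a * a = a * a * b * a
  bbab : b * b * a * b = b * a * b * b
  bba : b * b * a = a * a * b + a * b * a + a * b * b + b * a * a + b * a * b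
  bbaa : b * b * a * a = a * b * a * b
  baba : b * a * b * a = a * a * b * b
  baab : b * a * a * b = a * a * b * b + a * b * a * b

theorem eq_of_add (h2 : ∀ x : R, x + x = 0) (x y : R) (h : x + y = 0) : x = y := by
  rw [← neg2 h2 y]
  exact eq_neg_of_add_eq_zero_left h

theorem rels (hG : Cub G) (x y : Rˣ) (hx : x ∈ G) (hy : y ∈ G) : Rels ((x : R) + 1) ((y : R) + 1) := by
  have h2 := hG.1
  have t1 := T1 hG y x hy hx
  have t2 := T2 hG x y hx hy
  have t2' := T2 hG y x hy hx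
  have t3 := T3 hG x y hx hy
  have t4 := T4 hG x y hx hy
  have t4' := T4 hG y x hy hx
  have ha := cub3 hG x hx
  have hb := cub3 hG y hy
  generalize (x : R) + 1 = a at *
  generalize (y : R) + 1 = b at *
  unfold tT1 at t1
  unfold tT2 at t2 t2'
  unfold tT3 at t3
  unfold tT4 at t4 t4'
  rw [ev_ws h2] at t1 t2 t2' t3 t4 t4'
  simp only [sv, wv, List.map_cons, List.map_nil, List.sum_cons, List.sum_nil, cond_false, cond_true,
    mul_one, add_zero, ← mul_assoc] at t1 t2 t2' t3 t4 t4'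
  have e4 : a * b * a * b = b * b * a * a := eq_of_add h2 _ _ t4
  have e4' : b * a * b * a = a * a * b * b := eq_of_add h2 _ _ t4'
  refine ⟨h2, ha, hb, ?_, ?_, ?_, e4.symm, e4', ?_⟩
  · exact (eq_of_add h2 _ _ t2').symm
  · exact eq_of_add h2 _ _ t2
  · apply eq_of_add h2
    rw [← t3]
    abel
  · apply eq_of_add h2
    rw [← t1, e4]
    abel

end Tr

end Pool.Agent.MP_f7c5a7_al.E4
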