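import Mathlib

/-!
# MP_f7c5a7_al: a group of unipotent maps in which all `(g - 1) ^ 3` vanish

`B` is a commutative ring of characteristic `2`, `M` a `B`-module, `w` an alternating form on `M` with values in `B`, subject to two
identities `J`, `Q`. For a good vector `x` (`w u x • x = 0` for all `u`) the map `1 + X x` of `M × B`, `X x (u, b) = (b • x, w u x)`, is an
involution. For all products `g` of such maps `(g - 1) ^ 3 = 0`.
-/

set_option autoImplicit false

namespace Pool.Agent.MP_f7c5a7_al.E4

/-- the data: a commutative ring of characteristic 2, a module, a form -/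
structure Sys (B M : Type) [CommRing B] [AddCommGroup M] [Module B M] (w : M → M → B) : Prop where
  two : (2 : B) = 0
  addl : ∀ u v x, w (u + v) x = w u x + w v x
  smull : ∀ (b : B) (u v : M), w (b • u) v = b * w u v
  symm : ∀ u v, w u v = w v u
  alt : ∀ u, w u u = 0
  J : ∀ u v x, w u v • x + w v x • u + w x u • v = 0
  Q : ∀ u v x v' x', (w u v' * w x' v) • x + (w u v * w x v') • x' + (w v x * w v' x') • u = 0

/-- good vectors -/
def Good {B M : Type} [CommRing B] [AddCommGroup M] [Module B M] (w : M → M → B) (x : M) : Prop :=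
  ∀ u, w u x • x = 0

section

variable {B M : Type} [CommRing B] [AddCommGroup M] [Module B M] {w : M → M → B}

theorem Sys.addr (S : Sys B M w) (u v x : M) : w x (u + v) = w x u + w x v := by
  rw [S.symm, S.addl, S.symm u, S.symm v]

theorem Sys.smulr (S : Sys B M w) (b : B) (u v : M) : w v (b • u) = b * w v u := by
  rw [S.symm, S.smull, S.symm u]

theorem Sys.zerol (S : Sys B M w) (u : M) : w 0 u = 0 := by
  have h := S.smull 0 0 u
  rwa [zero_smul, zero_mul] at h

theorem Sys.zeror (S : Sys B M w) (u : M) : w u 0 = 0 := by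
  rw [S.symm, S.zerol]

theorem Sys.aa (S : Sys B M w) (b : B) : b + b = 0 := by
  rw [← two_mul, S.two, zero_mul]

theorem Sys.mm (S : Sys B M w) (u : M) : u + u = 0 := by
  rw [← two_smul B u, S.two, zero_smul]

theorem Sys.negb (S : Sys B M w) (b : B) : -b = b := by
  rw [neg_eq_iff_add_eq_zero, S.aa]

theorem Sys.negm (S : Sys B M w) (u : M) : -u = u := by
  rw [neg_eq_iff_add_eq_zero, S.mm]

/-- the operator `X x` -/
def opX (S : Sys B M w) (x : M) : Module.End B (M × B) where
  toFun p := (p.2 • x, w p.1 x)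
  map_add' p q := by
    simp only [Prod.snd_add, Prod.fst_add, add_smul, S.addl, Prod.mk_add_mk]
  map_smul' b p := by
    simp only [Prod.smul_snd, Prod.smul_fst, smul_eq_mul, mul_smul, S.smull, RingHom.id_apply, Prod.smul_mk]

theorem opX_apply (S : Sys B M w) (x u : M) (b : B) : opX S x (u, b) = (b • x, w u x) := rfl

/-- the operator `H c` -/
def opH (B M : Type) [CommRing B] [AddCommGroup M] [Module B M] (c : B) : Module.End B (M × B) where
  toFun p := (c • p.1, 0)
  map_add' p q := by
    simp only [Prod.fst_add, smul_add, Prod.mk_add_mk, add_zero]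
  map_smul' b p := by
    simp only [Prod.smul_fst, RingHom.id_apply, Prod.smul_mk, smul_zero, smul_comm c b]

theorem opH_apply (c : B) (u : M) (b : B) : opH B M c (u, b) = (c • u, 0) := rfl

/-- the invariants of an element of the group -/
structure Inv (S : Sys B M w) (Y : Set M) (g : Module.End B (M × B)) (Φ : M →ₗ[B] M) (t a : B) (μ : M) :
    Prop where
  g1 : ∀ u b, g (u, b) = (u + Φ u + b • μ, b + a * b + w u (μ + Φ μ))
  A1 : ∀ u v, w (Φ u) v = w u (Φ v) + t * w u v
  A2 : ∀ u v x, w u v • Φ x + w (Φ u) v • x = (t * w v x) • u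
  A3 : ∀ y ∈ Y, w (Φ y) y = 0
  A4 : ∀ u, Φ (Φ u) = 0
  A5 : t • μ = 0
  A5' : a • μ = 0
  A6 : ∀ u, w u μ • μ = a • u
  A7 : ∀ u, a • (u + Φ u) = t • u
  A8 : w μ (Φ μ) = 0
  A9 : a * a = 0

theorem inv_one (S : Sys B M w) (Y : Set M) : Inv S Y 1 0 0 0 0 where
  g1 u b := by simp [S.zeror]
  A1 u v := by simp [S.zerol, S.zeror]
  A2 u v x := by simp [S.zerol]
  A3 y hy := by simp [S.zerol]
  A4 u := by simp
  A5 := by simp
  A5' := by simp
  A6 u := by simp
  A7 u := by simp
  A8 := by simp [S.zerol]
  A9 := by simp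

end

end Pool.Agent.MP_f7c5a7_al.E4
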